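import Pool.Agent.Lib.MP_305fdd_al.Fr.N.H.Ent
import Pool.Agent.Lib.MP_305fdd_al.NatBij

/-!
# MP_305fdd_al, F_r, section H: the number of lifts along a square zero ideal
-/

set_option autoImplicit false

namespace FrH

open Matrix Pool.Agent.Lib.MP_305fdd_al Pool.Agent.MP_305fdd_al

section lift

variable {R : Type} [CommRing R] (I : Ideal R)

theorem mul_eq_zero_of {I : Ideal R} (hI : I ^ 2 = ⊥) {x y : R} (hx : x ∈ I) (hy : y ∈ I) :
    x * y = 0 := by
  have h : x * y ∈ I ^ 2 := by
    rw [pow_two]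
    exact Ideal.mul_mem_mul hx hy
  rwa [hI, Ideal.mem_bot] at h

theorem mk_surj (hI : I ^ 2 = ⊥) : Function.Surjective (smap (Ideal.Quotient.mk I)) := by
  intro g
  obtain ⟨a, ha⟩ := Ideal.Quotient.mk_surjective (g 0 0)
  obtain ⟨b, hb⟩ := Ideal.Quotient.mk_surjective (g 0 1)
  obtain ⟨c, hc⟩ := Ideal.Quotient.mk_surjective (g 1 0)
  obtain ⟨d, hd⟩ := Ideal.Quotient.mk_surjective (g 1 1)
  have h1 : a * d - b * c - 1 ∈ I := by
    rw [← Ideal.Quotient.eq_zero_iff_mem, map_sub, map_sub, map_mul, map_mul, ha, hb, hc, hd,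
      map_one, det_eq, sub_self]
  obtain ⟨e, he⟩ : ∃ e, e = a * d - b * c - 1 := ⟨_, rfl⟩
  rw [← he] at h1
  have h2 : e * e = 0 := mul_eq_zero_of hI h1 h1
  have h3 : Ideal.Quotient.mk I e = 0 := Ideal.Quotient.eq_zero_iff_mem.2 h1
  refine ⟨mk4 ((1 - e) * a) ((1 - e) * b) c d ?_, ?_⟩
  · linear_combination -h2 - (1 - e) * he
  · refine ext_ent ?_ ?_ ?_ ?_
    · rw [map_ent, mk4_00, map_mul, map_sub, map_one, h3, ha, sub_zero, one_mul]
    · rw [map_ent, mk4_01, map_mul, map_sub, map_one, h3, hb, sub_zero, one_mul]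
    · rw [map_ent, mk4_10, hc]
    · rw [map_ent, mk4_11, hd]

/-- the kernel of the reduction modulo a square zero ideal -/
def kerEquiv (hI : I ^ 2 = ⊥) : (smap (Ideal.Quotient.mk I)).ker ≃ I × I × I where
  toFun g := (⟨g.1 0 0 - 1, by
      rw [← Ideal.Quotient.eq_zero_iff_mem, map_sub, map_one, ← map_ent,
        (MonoidHom.mem_ker.1 g.2 : smap (Ideal.Quotient.mk I) g.1 = 1), one_ent, if_pos rfl,
        sub_self]⟩,
    ⟨g.1 0 1, by
      rw [← Ideal.Quotient.eq_zero_iff_mem, ← map_ent,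
        (MonoidHom.mem_ker.1 g.2 : smap (Ideal.Quotient.mk I) g.1 = 1), one_ent,
        if_neg Fin.zero_ne_one]⟩,
    ⟨g.1 1 0, by
      rw [← Ideal.Quotient.eq_zero_iff_mem, ← map_ent,
        (MonoidHom.mem_ker.1 g.2 : smap (Ideal.Quotient.mk I) g.1 = 1), one_ent,
        if_neg Fin.zero_ne_one.symm]⟩)
  invFun x := ⟨mk4 (1 + x.1.1) x.2.1.1 x.2.2.1 (1 - x.1.1) (by
      have h1 := mul_eq_zero_of hI x.1.2 x.1.2
      have h2 := mul_eq_zero_of hI x.2.1.2 x.2.2.2
      linear_combination -h1 - h2), by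
      have h1 : Ideal.Quotient.mk I x.1.1 = 0 := Ideal.Quotient.eq_zero_iff_mem.2 x.1.2
      have h2 : Ideal.Quotient.mk I x.2.1.1 = 0 := Ideal.Quotient.eq_zero_iff_mem.2 x.2.1.2
      have h3 : Ideal.Quotient.mk I x.2.2.1 = 0 := Ideal.Quotient.eq_zero_iff_mem.2 x.2.2.2
      rw [MonoidHom.mem_ker]
      refine ext_ent ?_ ?_ ?_ ?_
      · rw [map_ent, mk4_00, map_add, map_one, h1, add_zero, one_ent, if_pos rfl]
      · rw [map_ent, mk4_01, h2, one_ent, if_neg Fin.zero_ne_one]
      · rw [map_ent, mk4_10, h3, one_ent, if_neg Fin.zero_ne_one.symm]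
      · rw [map_ent, mk4_11, map_sub, map_one, h1, sub_zero, one_ent, if_pos rfl]⟩
  left_inv := by
    intro g
    have hg := (MonoidHom.mem_ker.1 g.2 : smap (Ideal.Quotient.mk I) g.1 = 1)
    have h0 : g.1 0 0 - 1 ∈ I := by
      rw [← Ideal.Quotient.eq_zero_iff_mem, map_sub, map_one, ← map_ent, hg, one_ent, if_pos rfl,
        sub_self]
    have h1 : g.1 1 1 - 1 ∈ I := by
      rw [← Ideal.Quotient.eq_zero_iff_mem, map_sub, map_one, ← map_ent, hg, one_ent, if_pos rfl,
        sub_self]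
    have h2 : g.1 0 1 ∈ I := by
      rw [← Ideal.Quotient.eq_zero_iff_mem, ← map_ent, hg, one_ent, if_neg Fin.zero_ne_one]
    have h3 : g.1 1 0 ∈ I := by
      rw [← Ideal.Quotient.eq_zero_iff_mem, ← map_ent, hg, one_ent, if_neg Fin.zero_ne_one.symm]
    have h4 := mul_eq_zero_of hI h0 h1
    have h5 := mul_eq_zero_of hI h2 h3
    have h6 := det_eq g.1
    apply Subtype.ext
    refine ext_ent ?_ ?_ ?_ ?_
    · rw [mk4_00]
      ring
    · rw [mk4_01]
    · rw [mk4_10]
    · rw [mk4_11]
      linear_combination h4 - h5 - h6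
  right_inv := by
    rintro ⟨x, y, z⟩
    refine Prod.ext (Subtype.ext ?_) (Prod.ext (Subtype.ext ?_) (Subtype.ext ?_))
    · change (1 + x.1) - 1 = x.1
      ring
    · rfl
    · rfl

theorem card_ker (hI : I ^ 2 = ⊥) :
    Nat.card (smap (Ideal.Quotient.mk I)).ker = Nat.card I ^ 3 := by
  rw [Nat.card_congr (kerEquiv I hI), Nat.card_prod, Nat.card_prod]
  ring

end lift

/-- the fibres of a surjective homomorphism -/
theorem card_fibre {G H : Type} [Group G] [Group H] (f : G →* H) (hf : Function.Surjective f)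
    (y : H) : Nat.card {g : G // f g = y} = Nat.card f.ker := by
  obtain ⟨x, rfl⟩ := hf y
  refine Nat.card_congr
    { toFun := fun g => ⟨x⁻¹ * g.1, by rw [MonoidHom.mem_ker, map_mul, map_inv, g.2,
        inv_mul_cancel]⟩
      invFun := fun k => ⟨x * k.1, by rw [map_mul, (MonoidHom.mem_ker.1 k.2), mul_one]⟩
      left_inv := fun g => Subtype.ext (mul_inv_cancel_left x g.1)
      right_inv := fun k => Subtype.ext (inv_mul_cancel_left x k.1) }

/-- the lifts of a homomorphism from a free group -/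
theorem card_free_lifts {n : ℕ} {G H : Type} [Group G] [Group H] (f : G →* H)
    (hf : Function.Surjective f) (θ : FreeGroup (Fin n) →* H) :
    Nat.card {s : FreeGroup (Fin n) →* G // f.comp s = θ} = Nat.card f.ker ^ n := by
  have e : {s : FreeGroup (Fin n) →* G // f.comp s = θ} ≃
      ∀ i : Fin n, {g : G // f g = θ (FreeGroup.of i)} :=
    { toFun := fun s i => ⟨s.1 (FreeGroup.of i), DFunLike.congr_fun s.2 (FreeGroup.of i)⟩
      invFun := fun g => ⟨FreeGroup.lift fun i => (g i).1, by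
        apply FreeGroup.ext_hom
        intro i
        change f (FreeGroup.lift _ (FreeGroup.of i)) = _
        rw [FreeGroup.lift_apply_of]
        exact (g i).2⟩
      left_inv := by
        intro s
        apply Subtype.ext
        apply FreeGroup.ext_hom
        intro i
        change FreeGroup.lift _ (FreeGroup.of i) = _
        rw [FreeGroup.lift_apply_of]
      right_inv := by
        intro g
        funext i
        apply Subtype.ext
        change FreeGroup.lift _ (FreeGroup.of i) = _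
        rw [FreeGroup.lift_apply_of] }
  rw [Nat.card_congr e, Nat.card_pi]
  simp only [card_fibre f hf]
  rw [Finset.prod_const, Finset.card_univ, Fintype.card_fin]

instance finite_SL2 (R : Type) [CommRing R] [Finite R] : Finite (SL2 R) :=
  Finite.of_injective (fun g : SL2 R => (g : Matrix (Fin 2) (Fin 2) R)) Subtype.val_injective

/-- the number of lifts for a group in the genus of the free group -/
theorem card_lifts_same {n : ℕ} {Λ : Type} [Group Λ] [Group.FG Λ]
    (h : SameFiniteQuotients Λ (FreeGroup (Fin n))) (R : Type) [CommRing R] [Finite R]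
    (I : Ideal R) (hI : I ^ 2 = ⊥) (r : Λ →* SL2 (R ⧸ I)) :
    Nat.card {s : Λ →* SL2 R // (smap (Ideal.Quotient.mk I)).comp s = r} =
      Nat.card I ^ (3 * n) := by
  obtain ⟨Φ⟩ := exists_natBij h
  have hfin : Finite (R ⧸ I) := Finite.of_surjective _ Ideal.Quotient.mk_surjective
  rw [Φ.card_lifts (smap (Ideal.Quotient.mk I)) r, card_free_lifts _ (mk_surj I hI), card_ker I hI,
    pow_mul]

end FrH
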