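import Pool.Agent.Lib.MP_305fdd_al.Fr.N.H.Dom
import Pool.Agent.Lib.MP_305fdd_al.Fr.N.H.Cnt
import Pool.Agent.Lib.MP_305fdd_al.Fr.X.Core
import Pool.Agent.Lib.MP_305fdd_al.Fr.Asm.Stm

/-!
# MP_305fdd_al, F_r, section H: a group in the genus of a free group has a quotient in the class
-/

set_option autoImplicit false

namespace FrH

open Matrix Pool.Agent.Lib.MP_305fdd_al Pool.Agent.MP_305fdd_al Pool.Agent.FrN Pool.Agent.FrAsm

theorem map_inj {R S : Type*} [CommRing R] [CommRing S] (f : R →+* S)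
    (hf : Function.Injective f) : Function.Injective (smap f) := by
  intro g h hgh
  refine Matrix.SpecialLinearGroup.ext _ _ fun a b => hf ?_
  rw [← map_ent, ← map_ent, hgh]

section fac

variable (Λ : Type) [Group Λ] (F : Type) [Field F] [Algebra (UR (ZMod 2) Λ) F]

/-- the universal representation over the field of fractions -/
noncomputable def rU : Λ →* SL2 F :=
  (smap (algebraMap (UR (ZMod 2) Λ) F)).comp (UR.univ (ZMod 2) Λ)

/-- the image -/
abbrev GU : Type := (rU Λ F).range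

/-- the projection -/
noncomputable def piU : Λ →* GU Λ F := (rU Λ F).rangeRestrict

theorem piU_surj : Function.Surjective (piU Λ F) := (rU Λ F).rangeRestrict_surjective

/-- the representation of the image -/
noncomputable def rG : GU Λ F →* SL2 F := (rU Λ F).range.subtype

theorem rG_inj : Function.Injective (rG Λ F) := Subtype.val_injective

theorem rG_piU (x : Λ) : rG Λ F (piU Λ F x) = rU Λ F x := rfl

variable [FaithfulSMul (UR (ZMod 2) Λ) F]

/-- every representation of `Λ` is a representation of the image -/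
theorem ker_le (R : Type) [CommRing R] [Algebra (ZMod 2) R] (s : Λ →* SL2 R) :
    (piU Λ F).ker ≤ s.ker := by
  intro x hx
  rw [MonoidHom.mem_ker] at hx ⊢
  have h1 : rU Λ F x = 1 := by rw [← rG_piU, hx, map_one]
  have h2 : UR.univ (ZMod 2) Λ x = 1 := by
    apply map_inj _ (FaithfulSMul.algebraMap_injective (UR (ZMod 2) Λ) F)
    rw [map_one]
    exact h1
  have h3 := UR.map_lift_univ (algebraMap (ZMod 2) R) s
  rw [← h3, MonoidHom.comp_apply, h2, map_one]

/-- representations of `Λ` and of the image -/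
noncomputable def facEquiv (R : Type) [CommRing R] [Algebra (ZMod 2) R] :
    (GU Λ F →* SL2 R) ≃ (Λ →* SL2 R) where
  toFun r := r.comp (piU Λ F)
  invFun s := (piU Λ F).liftOfSurjective (piU_surj Λ F) ⟨s, ker_le Λ F R s⟩
  left_inv r := by
    rw [← MonoidHom.cancel_right (piU_surj Λ F)]
    exact MonoidHom.liftOfRightInverse_comp _ _ _ ⟨r.comp (piU Λ F), ker_le Λ F R _⟩
  right_inv s := MonoidHom.liftOfRightInverse_comp _ _ _ ⟨s, ker_le Λ F R s⟩

theorem facEquiv_apply (R : Type) [CommRing R] [Algebra (ZMod 2) R] (r : GU Λ F →* SL2 R)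
    (x : Λ) : facEquiv Λ F R r x = r (piU Λ F x) := rfl

/-- the unipotent matrix -/
def uni (R : Type) [CommRing R] : Multiplicative R →* SL2 R where
  toFun x := mk4 1 x.toAdd 0 1 (by ring)
  map_one' := by
    refine ext_ent ?_ ?_ ?_ ?_ <;> rfl
  map_mul' x y := by
    refine ext_ent ?_ ?_ ?_ ?_
    · rw [mul_ent, mk4_00, mk4_00, mk4_00, mk4_01, mk4_10]
      ring
    · rw [mul_ent, mk4_01, mk4_00, mk4_01, mk4_01, mk4_11, toAdd_mul]
      ring
    · rw [mul_ent, mk4_10, mk4_10, mk4_00, mk4_11, mk4_10]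
      ring
    · rw [mul_ent, mk4_11, mk4_10, mk4_01, mk4_11, mk4_11]
      ring

theorem uni_01 (R : Type) [CommRing R] (x : Multiplicative R) : uni R x 0 1 = x.toAdd := rfl

theorem uni_inj (R : Type) [CommRing R] : Function.Injective (uni R) := by
  intro x y h
  have h1 : uni R x 0 1 = uni R y 0 1 := by rw [h]
  rw [uni_01, uni_01] at h1
  exact h1

/-- homomorphisms to the group of order two -/
theorem card_ab : Nat.card (GU Λ F →* Multiplicative (ZMod 2)) =
    Nat.card (Λ →* Multiplicative (ZMod 2)) := by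
  refine Nat.card_congr (Equiv.ofBijective (fun r => r.comp (piU Λ F)) ⟨?_, ?_⟩)
  · intro r r' h
    exact (MonoidHom.cancel_right (piU_surj Λ F)).1 h
  · intro s
    have hk : (piU Λ F).ker ≤ s.ker := by
      intro x hx
      have h1 := ker_le Λ F (ZMod 2) ((uni (ZMod 2)).comp s) hx
      rw [MonoidHom.mem_ker] at h1 ⊢
      apply uni_inj
      rw [map_one]
      exact h1
    exact ⟨(piU Λ F).liftOfSurjective (piU_surj Λ F) ⟨s, hk⟩,
      MonoidHom.liftOfRightInverse_comp _ _ _ ⟨s, hk⟩⟩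

variable [Algebra (ZMod 2) F] [IsScalarTower (ZMod 2) (UR (ZMod 2) Λ) F]

/-- the embedding -/
noncomputable def iU : UR (ZMod 2) Λ →ₐ[ZMod 2] F := Algebra.algHom (ZMod 2) (UR (ZMod 2) Λ) F

omit [FaithfulSMul (UR (ZMod 2) Λ) F] in
theorem iU_apply (x : UR (ZMod 2) Λ) : iU Λ F x = algebraMap (UR (ZMod 2) Λ) F x := rfl

theorem iU_inj : Function.Injective (iU Λ F) :=
  FaithfulSMul.algebraMap_injective (UR (ZMod 2) Λ) F

omit [FaithfulSMul (UR (ZMod 2) Λ) F] in
theorem iU_univ (x : Λ) (a b : Fin 2) :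
    iU Λ F (UR.univ (ZMod 2) Λ x a b) = (rU Λ F x).1 a b := rfl

omit [FaithfulSMul (UR (ZMod 2) Λ) F] in
theorem OO_eq : OO 2 (rG Λ F) = (iU Λ F).range := by
  have h1 : {x | ∃ g i j, x = ((rG Λ F) g).1 i j} = iU Λ F ''
      (Set.range fun p : Λ × Fin 2 × Fin 2 => UR.univ (ZMod 2) Λ p.1 p.2.1 p.2.2) := by
    ext y
    constructor
    · rintro ⟨g, i, j, rfl⟩
      obtain ⟨x, rfl⟩ := piU_surj Λ F g
      exact ⟨_, ⟨(x, i, j), rfl⟩, iU_univ Λ F x i j⟩
    · rintro ⟨_, ⟨⟨x, i, j⟩, rfl⟩, rfl⟩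
      exact ⟨piU Λ F x, i, j, rfl⟩
  rw [OO, h1, ← AlgHom.map_adjoin, UR.adjoin_univ, Algebra.map_top]

theorem exists_phi (R : Type) [CommRing R] [Algebra (ZMod 2) R] (r : GU Λ F →* SL2 R) :
    ∃ φ : OO 2 (rG Λ F) →ₐ[ZMod 2] R,
      ∀ g i j, φ ⟨((rG Λ F) g).1 i j, mem_OO _ g i j⟩ = (r g).1 i j := by
  let ψ : UR (ZMod 2) Λ →ₐ[ZMod 2] R :=
    { UR.lift (algebraMap (ZMod 2) R) (facEquiv Λ F R r) with
      commutes' := fun c => UR.lift_algebraMap _ _ _ }
  have hψ : ∀ x a b, ψ (UR.univ (ZMod 2) Λ x a b) = facEquiv Λ F R r x a b := fun x a b =>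
    UR.lift_univ _ _ _ _ _
  let e : UR (ZMod 2) Λ ≃ₐ[ZMod 2] (iU Λ F).range := AlgEquiv.ofInjective _ (iU_inj Λ F)
  let φ : OO 2 (rG Λ F) →ₐ[ZMod 2] R :=
    (ψ.comp e.symm.toAlgHom).comp (Subalgebra.inclusion (OO_eq Λ F).le)
  refine ⟨φ, fun g i j => ?_⟩
  obtain ⟨x, rfl⟩ := piU_surj Λ F g
  change ψ (e.symm ⟨_, _⟩) = facEquiv Λ F R r x i j
  rw [← hψ]
  congr 1
  rw [AlgEquiv.symm_apply_eq]
  rfl

end fac

/-- `D_cls` -/
theorem d_cls : D_cls := by
  intro n Λ _ _ h
  have hdom : IsDomain (UR (ZMod 2) Λ) := isDomain h 2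
  have hFG : Group.FG Λ := inferInstance
  let F : Type := FractionRing (UR (ZMod 2) Λ)
  have hfs : FaithfulSMul (UR (ZMod 2) Λ) F := inferInstance
  have hst : IsScalarTower (ZMod 2) (UR (ZMod 2) Λ) F := inferInstance
  have hfg : Group.FG (GU Λ F) := Group.fg_of_surjective (piU_surj Λ F)
  have hfrc : Frc (OO 2 (rG Λ F)) := by
    intro x
    obtain ⟨a, b, hb, hx⟩ := IsFractionRing.div_surjective (A := UR (ZMod 2) Λ) x
    have hb0 : algebraMap (UR (ZMod 2) Λ) F b ≠ 0 :=
      IsFractionRing.to_map_ne_zero_of_mem_nonZeroDivisors hb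
    rw [OO_eq]
    refine ⟨algebraMap _ _ a, ⟨a, rfl⟩, algebraMap _ _ b, ⟨b, rfl⟩, hb0, ?_⟩
    rw [← hx, div_mul_cancel₀ _ hb0]
  have hab : Nat.card (GU Λ F →* Multiplicative (ZMod 2)) = 2 ^ n := by
    rw [card_ab]
    have h1 : Nat.card (Λ →* Multiplicative (ZMod 2)) =
        Nat.card (FreeGroup (Fin n) →* Multiplicative (ZMod 2)) :=
      hc_eq_of_same (Multiplicative (ZMod 2)) h
    rw [h1, Nat.card_congr (FreeGroup.lift (α := Fin n) (β := Multiplicative (ZMod 2))).symm,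
      Nat.card_fun, Nat.card_eq_fintype_card (α := Fin n), Fintype.card_fin]
    congr 1
    exact Nat.card_zmod 2
  -- the transcendence degree
  have htr : Algebra.trdeg (ZMod 2) F = 3 * n := by
    have hle : ((3 * n : ℕ) : Cardinal) ≤ Algebra.trdeg (ZMod 2) F :=
      (le_trdeg h 2).trans (trdeg_le_of_injective (iU Λ F) (iU_inj Λ F))
    obtain ⟨φ, hφ⟩ := exists_phi Λ F (ZMod 2) 1
    have : Finite (GU Λ F →* Multiplicative (ZMod 2)) := finite_hom _ _
    have h1 : Algebra.trdeg (ZMod 2) (OO 2 (rG Λ F)) ≤ ((3 * n : ℕ) : Cardinal) :=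
      Pool.Agent.FrX.lemD_field (rG Λ F) φ.toRingHom (fun a i j => hφ a i j) n hab.le
    have halg : Algebra.IsAlgebraic (OO 2 (rG Λ F)) F := by
      refine ⟨fun x => ?_⟩
      obtain ⟨a, ha, b, hb, hb0, hx⟩ := hfrc x
      refine ⟨Polynomial.C ⟨b, hb⟩ * Polynomial.X - Polynomial.C ⟨a, ha⟩, ?_, ?_⟩
      · intro h0
        have h2 := congrArg (fun q => Polynomial.coeff q 1) h0
        simp only [Polynomial.coeff_sub, Polynomial.coeff_C_mul, Polynomial.coeff_X_one, mul_one,
          Polynomial.coeff_C_succ, sub_zero, Polynomial.coeff_zero] at h2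
        exact hb0 (congrArg Subtype.val h2)
      · rw [map_sub, map_mul, Polynomial.aeval_C, Polynomial.aeval_X, Polynomial.aeval_C]
        change b * x - a = 0
        rw [mul_comm, hx, sub_self]
    have h2 := trdeg_add_eq (ZMod 2) (OO 2 (rG Λ F)) (A := F)
    rw [trdeg_eq_zero (R := OO 2 (rG Λ F)) (A := F), add_zero] at h2
    rw [h2] at h1
    have h3 := le_antisymm h1 hle
    rw [h3]
    push_cast
    rfl
  refine ⟨GU Λ F, inferInstance, piU Λ F, piU_surj Λ F,
    ⟨F, inferInstance, inferInstance, rG Λ F, ?_⟩, ?_⟩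
  · exact
      { fg := hfg
        inj := rG_inj Λ F
        frac := hfrc
        univ := fun R _ _ r => exists_phi Λ F R r
        trF := htr
        ab := hab
        sm := by
          intro R _ _ _ I hI r
          rw [← card_lifts_same h R I hI (r.comp (piU Λ F))]
          refine Nat.card_congr ((facEquiv Λ F R).subtypeEquiv fun s => ?_)
          change _ = r ↔ (smap (Ideal.Quotient.mk I)).comp (s.comp (piU Λ F)) = _
          rw [← MonoidHom.comp_assoc, MonoidHom.cancel_right (piU_surj Λ F)] }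
  · intro k hk
    unfold hh
    have hfin : Finite (GaloisField 2 k) := Nat.finite_of_card_ne_zero (by
      rw [GaloisField.card 2 k (by omega)]
      positivity)
    rw [Nat.card_congr (facEquiv Λ F (GaloisField 2 k))]
    exact hc_eq_of_same (SL2 (GaloisField 2 k)) h

end FrH
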