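import Pool.Agent.Lib.MP_305fdd_al.Fr.N.H.Trk

/-!
# MP_305fdd_al, F_r, section H: the trace field and the class `HB`
-/

set_option autoImplicit false

namespace FrH

open Matrix Pool.Agent.FrN Pool.Agent.FrAsm

variable {Γ F : Type} [Group Γ] [Field F] [Algebra (ZMod 2) F] {ρ : Γ →* SL2 F}

/-- the trace field is the field of fractions of the ring of the traces -/
theorem frc_KK (ρ : Γ →* SL2 F) : Frc (BB 2 (TT ρ)) := by
  intro x
  obtain ⟨r, hr, s, hs, hx⟩ := IntermediateField.mem_adjoin_iff_div.1 x.2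
  have h1 : (BB 2 (TT ρ)).map (KK ρ).val = Algebra.adjoin (ZMod 2)
      (Set.range fun g => (ρ g).1.trace) := by
    rw [BB, AlgHom.map_adjoin, ← Set.range_comp]
    rfl
  rw [← h1] at hr hs
  obtain ⟨r', hr', rfl⟩ := hr
  obtain ⟨s', hs', rfl⟩ := hs
  by_cases h0 : s' = 0
  · refine ⟨0, zero_mem _, 1, one_mem _, one_ne_zero, ?_⟩
    have h2 : x = 0 := by
      apply Subtype.ext
      rw [hx, h0, map_zero, div_zero]
      rfl
    rw [h2, zero_mul]
  · refine ⟨r', hr', s', hs', h0, ?_⟩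
    have h3 : (KK ρ).val s' ≠ 0 := by
      intro h4
      exact h0 (Subtype.ext h4)
    apply Subtype.ext
    change x.1 * (KK ρ).val s' = (KK ρ).val r'
    rw [hx]
    exact div_mul_cancel₀ _ h3

/-- the number of the lifts to the dual numbers -/
theorem lifts_le {b : ℕ} (h : Cls b Γ F ρ) (κ : Type) [Field κ] [Finite κ] [Algebra (ZMod 2) κ]
    (r : Γ →* SL2 κ) :
    Nat.card {s : Γ →* SL2 (DualNumber κ) //
      ∀ g i j, TrivSqZeroExt.fst ((s g).1 i j) = (r g).1 i j} ≤ Nat.card κ ^ (3 * b) := by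
  let R : Type := DualNumber κ
  have hfin : Finite R := inferInstanceAs (Finite (κ × κ))
  let fs : R →+* κ :=
    { toFun := TrivSqZeroExt.fst
      map_one' := TrivSqZeroExt.fst_one
      map_mul' := TrivSqZeroExt.fst_mul
      map_zero' := TrivSqZeroExt.fst_zero
      map_add' := TrivSqZeroExt.fst_add }
  let I : Ideal R := RingHom.ker fs
  have hmem : ∀ x : R, x ∈ I ↔ TrivSqZeroExt.fst x = 0 := fun x => Iff.rfl
  have hI : I ^ 2 = ⊥ := by
    rw [pow_two, eq_bot_iff, Ideal.mul_le]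
    intro x hx y hy
    rw [hmem] at hx hy
    rw [Ideal.mem_bot]
    refine TrivSqZeroExt.ext ?_ ?_
    · rw [TrivSqZeroExt.fst_mul, hx, zero_mul, TrivSqZeroExt.fst_zero]
    · rw [TrivSqZeroExt.snd_mul, hx, hy, zero_smul, MulOpposite.op_zero, zero_smul, add_zero,
        TrivSqZeroExt.snd_zero]
  have hcard : Nat.card I = Nat.card κ := by
    refine Nat.card_congr
      { toFun := fun x => TrivSqZeroExt.snd x.1
        invFun := fun m => ⟨TrivSqZeroExt.inr m, (hmem _).2 (TrivSqZeroExt.fst_inr κ m)⟩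
        left_inv := ?_
        right_inv := ?_ }
    · rintro ⟨x, hx⟩
      apply Subtype.ext
      refine TrivSqZeroExt.ext ?_ ?_
      · rw [TrivSqZeroExt.fst_inr, (hmem _).1 hx]
      · rw [TrivSqZeroExt.snd_inr]
    · intro m
      exact TrivSqZeroExt.snd_inr κ m
  let _ : Algebra (ZMod 2) R := inferInstance
  let s₀ : Γ →* SL2 R := (smap (TrivSqZeroExt.inlHom κ κ)).comp r
  have h1 := h.sm R I hI ((smap (Ideal.Quotient.mk I)).comp s₀)
  rw [hcard] at h1
  rw [← h1]
  have hfs : Finite (Γ →* SL2 R) := by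
    have : Group.FG Γ := h.fg
    have : Finite (SL2 R) :=
      Finite.of_injective (fun g : SL2 R => (g : Matrix (Fin 2) (Fin 2) R)) Subtype.val_injective
    exact Pool.Agent.MP_305fdd_al.finite_hom _ _
  refine Nat.card_le_card_of_injective (fun s => ⟨s.1, ?_⟩) ?_
  · refine MonoidHom.ext fun g => Matrix.SpecialLinearGroup.ext _ _ fun i j => ?_
    change Ideal.Quotient.mk I ((s.1 g).1 i j) =
      Ideal.Quotient.mk I (TrivSqZeroExt.inl ((r g).1 i j))
    rw [Ideal.Quotient.eq, hmem, TrivSqZeroExt.fst_sub, s.2, TrivSqZeroExt.fst_inl, sub_self]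
  · intro s s' hss
    have h2 := congrArg Subtype.val hss
    exact Subtype.ext h2

/-- `D_HB` -/
theorem d_HB : D_HB := by
  intro b Γ F _ _ _ ρ h hab
  obtain ⟨hb, g, k, hN⟩ := exists_pair h hab
  refine ⟨hb, KK ρ, inferInstance, inferInstance, inferInstance, TT ρ, ?_⟩
  have htr := trdeg_KK h.toUv g k hN
  exact
    { fg := h.fg
      tr := fun g => rfl
      fracK := frc_KK ρ
      fracF := h.frac
      trF := h.trF
      trK := htr.trans h.trF
      pts := fun κ _ _ _ r => h.univ κ r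
      lifts := fun κ _ _ _ r => lifts_le h κ r
      ab := h.ab }

end FrH
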