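import Pool.Agent.Lib.MP_305fdd_al.Fr.X.Core

/-!
# MP_305fdd_al, F_r, section H: matrices determined by traces
-/

set_option autoImplicit false

namespace FrH

open Matrix

section poly

variable {F : Type} [CommRing F]

/-- the determinant of the traces -/
def dN (a b c d a1 b1 c1 d1 : F) : F :=
  (a - d) * (c1 * (a * b1 + b * d1) - b1 * (c * a1 + d * c1)) -
    c * ((a1 - d1) * (a * b1 + b * d1) - b1 * ((a * a1 + b * c1) - (c * b1 + d * d1))) +
    b * ((a1 - d1) * (c * a1 + d * c1) - c1 * ((a * a1 + b * c1) - (c * b1 + d * d1)))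

theorem dN_eq (G H : Matrix (Fin 2) (Fin 2) F) : dN (G 0 0) (G 0 1) (G 1 0) (G 1 1)
    (H 0 0) (H 0 1) (H 1 0) (H 1 1) = (G * H - H * G).det := by
  rw [Matrix.det_fin_two]
  simp only [Matrix.sub_apply, Matrix.mul_apply, Fin.sum_univ_two, dN]
  ring

variable {a b c d a1 b1 c1 d1 p q r s w0 w1 w2 w3 : F}

theorem cram_p (h0 : p + s = w0) (h1 : p * a + q * c + r * b + s * d = w1)
    (h2 : p * a1 + q * c1 + r * b1 + s * d1 = w2)
    (h3 : p * (a * a1 + b * c1) + q * (c * a1 + d * c1) + r * (a * b1 + b * d1) +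
      s * (c * b1 + d * d1) = w3) :
    p * dN a b c d a1 b1 c1 d1 =
      (w1 - d * w0) * (c1 * (a * b1 + b * d1) - b1 * (c * a1 + d * c1)) -
      (w2 - d1 * w0) * (c * (a * b1 + b * d1) - b * (c * a1 + d * c1)) +
      (w3 - (c * b1 + d * d1) * w0) * (c * b1 - b * c1) := by
  unfold dN
  linear_combination
    (c1 * (a * b1 + b * d1) - b1 * (c * a1 + d * c1)) * (h1 - d * h0) -
    (c * (a * b1 + b * d1) - b * (c * a1 + d * c1)) * (h2 - d1 * h0) +
    (c * b1 - b * c1) * (h3 - (c * b1 + d * d1) * h0)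

theorem cram_q (h0 : p + s = w0) (h1 : p * a + q * c + r * b + s * d = w1)
    (h2 : p * a1 + q * c1 + r * b1 + s * d1 = w2)
    (h3 : p * (a * a1 + b * c1) + q * (c * a1 + d * c1) + r * (a * b1 + b * d1) +
      s * (c * b1 + d * d1) = w3) :
    q * dN a b c d a1 b1 c1 d1 =
      (a - d) * ((w2 - d1 * w0) * (a * b1 + b * d1) - (w3 - (c * b1 + d * d1) * w0) * b1) -
      (a1 - d1) * ((w1 - d * w0) * (a * b1 + b * d1) - (w3 - (c * b1 + d * d1) * w0) * b) +
      ((a * a1 + b * c1) - (c * b1 + d * d1)) *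
        ((w1 - d * w0) * b1 - (w2 - d1 * w0) * b) := by
  unfold dN
  linear_combination
    (a - d) * ((a * b1 + b * d1) * (h2 - d1 * h0) - b1 * (h3 - (c * b1 + d * d1) * h0)) -
    (a1 - d1) * ((a * b1 + b * d1) * (h1 - d * h0) - b * (h3 - (c * b1 + d * d1) * h0)) +
    ((a * a1 + b * c1) - (c * b1 + d * d1)) * (b1 * (h1 - d * h0) - b * (h2 - d1 * h0))

theorem cram_r (h0 : p + s = w0) (h1 : p * a + q * c + r * b + s * d = w1)
    (h2 : p * a1 + q * c1 + r * b1 + s * d1 = w2)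
    (h3 : p * (a * a1 + b * c1) + q * (c * a1 + d * c1) + r * (a * b1 + b * d1) +
      s * (c * b1 + d * d1) = w3) :
    r * dN a b c d a1 b1 c1 d1 =
      (a - d) * (c1 * (w3 - (c * b1 + d * d1) * w0) - (c * a1 + d * c1) * (w2 - d1 * w0)) -
      (a1 - d1) * (c * (w3 - (c * b1 + d * d1) * w0) - (c * a1 + d * c1) * (w1 - d * w0)) +
      ((a * a1 + b * c1) - (c * b1 + d * d1)) *
        (c * (w2 - d1 * w0) - c1 * (w1 - d * w0)) := by
  unfold dN
  linear_combination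
    (a - d) * (c1 * (h3 - (c * b1 + d * d1) * h0) - (c * a1 + d * c1) * (h2 - d1 * h0)) -
    (a1 - d1) * (c * (h3 - (c * b1 + d * d1) * h0) - (c * a1 + d * c1) * (h1 - d * h0)) +
    ((a * a1 + b * c1) - (c * b1 + d * d1)) * (c * (h2 - d1 * h0) - c1 * (h1 - d * h0))

end poly

section alg

variable {R F : Type} [CommRing R] [IsDomain R] [Field F] [Algebra R F]

theorem alg_of_mul {x δ e : F} (hδ : IsAlgebraic R δ) (he : IsAlgebraic R e) (h0 : δ ≠ 0)
    (h : x * δ = e) : IsAlgebraic R x := by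
  have : x = e * δ⁻¹ := by
    rw [← h, mul_inv_cancel_right₀ h0]
  rw [this]
  exact he.mul hδ.inv

/-- the entries of the second matrix -/
theorem alg_pair {a b c d a1 b1 c1 d1 τ τ1 w : F} (ha : IsAlgebraic R a) (hc : IsAlgebraic R c)
    (hc1 : IsAlgebraic R c1) (hτ : IsAlgebraic R τ) (hτ1 : IsAlgebraic R τ1)
    (hw : IsAlgebraic R w) (h0 : c ≠ 0) (e1 : a + d = τ) (e2 : a1 + d1 = τ1)
    (e3 : a * a1 + b * c1 + (c * b1 + d * d1) = w) (e4 : a * d - b * c = 1)
    (e5 : a1 * d1 - b1 * c1 = 1) :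
    IsAlgebraic R b ∧ IsAlgebraic R d ∧ IsAlgebraic R a1 ∧ IsAlgebraic R b1 ∧
      IsAlgebraic R d1 := by
  have hone : IsAlgebraic R (1 : F) := isAlgebraic_one
  have hd : IsAlgebraic R d := by
    rw [show d = τ - a by linear_combination e1]
    exact hτ.sub ha
  have hb : IsAlgebraic R b := alg_of_mul hc ((ha.mul hd).sub hone) h0 (by linear_combination -e4)
  have hci := hc.inv
  have ha1 : IsAlgebraic R a1 := by
    refine Pool.Agent.FrX.alg_quad (b := -(τ1 + c1 * c⁻¹ * (a - d)))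
      (c := c1 * c⁻¹ * (w - b * c1 - d * τ1) + 1) ?_ ?_ ?_
    · exact (hτ1.add ((hc1.mul hci).mul (ha.sub hd))).neg
    · exact ((hc1.mul hci).mul ((hw.sub (hb.mul hc1)).sub (hd.mul hτ1))).add hone
    · have e6 : c * c⁻¹ = 1 := mul_inv_cancel₀ h0
      linear_combination -e5 + a1 * e2 + c1 * c⁻¹ * d * e2 - c1 * c⁻¹ * e3 + b1 * c1 * e6
  have hd1 : IsAlgebraic R d1 := by
    rw [show d1 = τ1 - a1 by linear_combination e2]
    exact hτ1.sub ha1
  refine ⟨hb, hd, ha1, ?_, hd1⟩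
  refine alg_of_mul hc (((hw.sub (ha.mul ha1)).sub (hb.mul hc1)).sub (hd.mul hd1)) h0 ?_
  linear_combination e3

/-- a matrix with given traces -/
theorem alg_all {a b c d a1 b1 c1 d1 p q r s w0 w1 w2 w3 : F} (ha : IsAlgebraic R a)
    (hb : IsAlgebraic R b) (hc : IsAlgebraic R c) (hd : IsAlgebraic R d) (ha1 : IsAlgebraic R a1)
    (hb1 : IsAlgebraic R b1) (hc1 : IsAlgebraic R c1) (hd1 : IsAlgebraic R d1)
    (hw0 : IsAlgebraic R w0) (hw1 : IsAlgebraic R w1) (hw2 : IsAlgebraic R w2)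
    (hw3 : IsAlgebraic R w3) (hN : dN a b c d a1 b1 c1 d1 ≠ 0)
    (h0 : p + s = w0) (h1 : p * a + q * c + r * b + s * d = w1)
    (h2 : p * a1 + q * c1 + r * b1 + s * d1 = w2)
    (h3 : p * (a * a1 + b * c1) + q * (c * a1 + d * c1) + r * (a * b1 + b * d1) +
      s * (c * b1 + d * d1) = w3) :
    IsAlgebraic R p ∧ IsAlgebraic R q ∧ IsAlgebraic R r ∧ IsAlgebraic R s := by
  have hA : IsAlgebraic R (a * a1 + b * c1) := (ha.mul ha1).add (hb.mul hc1)
  have hB : IsAlgebraic R (a * b1 + b * d1) := (ha.mul hb1).add (hb.mul hd1)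
  have hC : IsAlgebraic R (c * a1 + d * c1) := (hc.mul ha1).add (hd.mul hc1)
  have hD : IsAlgebraic R (c * b1 + d * d1) := (hc.mul hb1).add (hd.mul hd1)
  have hv1 : IsAlgebraic R (w1 - d * w0) := hw1.sub (hd.mul hw0)
  have hv2 : IsAlgebraic R (w2 - d1 * w0) := hw2.sub (hd1.mul hw0)
  have hv3 : IsAlgebraic R (w3 - (c * b1 + d * d1) * w0) := hw3.sub (hD.mul hw0)
  have had := ha.sub hd
  have had1 := ha1.sub hd1
  have hAD := hA.sub hD
  have hδ : IsAlgebraic R (dN a b c d a1 b1 c1 d1) := by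
    unfold dN
    exact ((had.mul ((hc1.mul hB).sub (hb1.mul hC))).sub
      (hc.mul ((had1.mul hB).sub (hb1.mul hAD)))).add
      (hb.mul ((had1.mul hC).sub (hc1.mul hAD)))
  have hp : IsAlgebraic R p := by
    refine alg_of_mul hδ ?_ hN (cram_p h0 h1 h2 h3)
    exact ((hv1.mul ((hc1.mul hB).sub (hb1.mul hC))).sub
      (hv2.mul ((hc.mul hB).sub (hb.mul hC)))).add (hv3.mul ((hc.mul hb1).sub (hb.mul hc1)))
  have hq : IsAlgebraic R q := by
    refine alg_of_mul hδ ?_ hN (cram_q h0 h1 h2 h3)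
    exact ((had.mul ((hv2.mul hB).sub (hv3.mul hb1))).sub
      (had1.mul ((hv1.mul hB).sub (hv3.mul hb)))).add
      (hAD.mul ((hv1.mul hb1).sub (hv2.mul hb)))
  have hr : IsAlgebraic R r := by
    refine alg_of_mul hδ ?_ hN (cram_r h0 h1 h2 h3)
    exact ((had.mul ((hc1.mul hv3).sub (hC.mul hv2))).sub
      (had1.mul ((hc.mul hv3).sub (hC.mul hv1)))).add
      (hAD.mul ((hc.mul hv2).sub (hc1.mul hv1)))
  refine ⟨hp, hq, hr, ?_⟩
  rw [show s = w0 - p by linear_combination h0]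
  exact hw0.sub hp

end alg

end FrH
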