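import Pool.Agent.Lib.MP_305fdd_al.Fr.N.H.Ent
import Pool.Agent.Lib.MP_305fdd_al.Fr.Asm.Stm

/-!
# MP_305fdd_al, F_r, section H: conjugation of the universal representation
-/

set_option autoImplicit false

namespace FrH

open Matrix Pool.Agent.FrN Pool.Agent.FrAsm PowerSeries

section conj

variable {R : Type} [CommRing R]

/-- conjugation by `P` with inverse `Q` -/
def conjM (P Q : Matrix (Fin 2) (Fin 2) R) (h : P * Q = 1) : SL2 R →* SL2 R where
  toFun g := ⟨P * g.1 * Q, by
    rw [Matrix.det_mul, Matrix.det_mul, g.2, mul_one, ← Matrix.det_mul, h, Matrix.det_one]⟩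
  map_one' := by
    apply Subtype.ext
    change P * (1 : Matrix (Fin 2) (Fin 2) R) * Q = 1
    rw [mul_one, h]
  map_mul' x y := by
    apply Subtype.ext
    change P * (x.1 * y.1) * Q = P * x.1 * Q * (P * y.1 * Q)
    have h' : Q * P = 1 := mul_eq_one_comm.1 h
    calc P * (x.1 * y.1) * Q = P * x.1 * 1 * y.1 * Q := by
          rw [mul_one, mul_assoc P x.1 y.1]
      _ = P * x.1 * (Q * P) * y.1 * Q := by rw [h']
      _ = P * x.1 * Q * (P * y.1 * Q) := by
          simp only [mul_assoc]

theorem conjM_apply (P Q : Matrix (Fin 2) (Fin 2) R) (h : P * Q = 1) (g : SL2 R) :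
    (conjM P Q h g).1 = P * g.1 * Q := rfl

theorem conjM_trace (P Q : Matrix (Fin 2) (Fin 2) R) (h : P * Q = 1) (g : SL2 R) :
    (conjM P Q h g).1.trace = g.1.trace := by
  rw [conjM_apply, Matrix.trace_mul_cycle, mul_eq_one_comm.1 h, one_mul]

end conj

variable {Γ F : Type} [Group Γ] [Field F] [Algebra (ZMod 2) F] {ρ : Γ →* SL2 F}

/-- the field of fractions of the ring of power series -/
abbrev LL (F : Type) [Field F] : Type := FractionRing F⟦X⟧

omit [Algebra (ZMod 2) F] in
theorem algebraMap_LL (c : F) : algebraMap F (LL F) c = algebraMap F⟦X⟧ (LL F) (C c) := by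
  rw [IsScalarTower.algebraMap_apply F F⟦X⟧ (LL F)]
  rfl

theorem isFrac (h : Uv Γ F ρ) : IsFractionRing (OO 2 ρ) F := by
  refine IsFractionRing.of_field _ _ fun z => ?_
  obtain ⟨a, ha, b, hb, hb0, hz⟩ := h.frac z
  exact ⟨⟨a, ha⟩, ⟨b, hb⟩, (eq_div_iff hb0).2 hz⟩

/-- the homomorphism given by conjugation -/
theorem exists_conj (h : Uv Γ F ρ) (P Q : Matrix (Fin 2) (Fin 2) F⟦X⟧) (hPQ : P * Q = 1)
    (hP : P.map constantCoeff = 1) : ∃ f : F →+* LL F,
      (∀ g i j, f ((ρ g).1 i j) =
        algebraMap F⟦X⟧ (LL F) ((P * (ρ g).1.map (C : F →+* F⟦X⟧) * Q) i j)) ∧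
      ∀ z c, f z = algebraMap F (LL F) c → c = z := by
  have hQ : Q.map constantCoeff = (1 : Matrix (Fin 2) (Fin 2) F) := by
    have h1 := congrArg (fun M : Matrix (Fin 2) (Fin 2) F⟦X⟧ => M.map constantCoeff) hPQ
    rw [Matrix.map_mul, hP, one_mul] at h1
    rw [h1]
    ext i j
    rw [Matrix.map_apply, Matrix.one_apply, Matrix.one_apply]
    split_ifs <;> simp
  let r : Γ →* SL2 F⟦X⟧ := (conjM P Q hPQ).comp ((smap (C : F →+* F⟦X⟧)).comp ρ)
  have hr : ∀ g, (r g).1 = P * (ρ g).1.map (C : F →+* F⟦X⟧) * Q := fun g => rfl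
  obtain ⟨φ, hφ⟩ := h.univ F⟦X⟧ r
  have hε : ∀ x : OO 2 ρ, constantCoeff (φ x) = (x : F) := by
    have h2 : ∀ c : ZMod 2, (constantCoeff (algebraMap (ZMod 2) F⟦X⟧ c) : F) =
        algebraMap (ZMod 2) F c := fun c =>
      DFunLike.congr_fun (Subsingleton.elim
        ((constantCoeff (R := F)).comp (algebraMap (ZMod 2) F⟦X⟧)) (algebraMap (ZMod 2) F)) c
    let ε : F⟦X⟧ →ₐ[ZMod 2] F := { constantCoeff with commutes' := h2 }
    have h3 : ε.comp φ = (OO 2 ρ).val := by
      refine AlgHom.adjoin_ext ?_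
      rintro _ ⟨g, i, j, rfl⟩
      change constantCoeff (φ ⟨(ρ g).1 i j, mem_OO ρ g i j⟩) = (ρ g).1 i j
      rw [hφ, hr]
      have h4 : (P * (ρ g).1.map (C : F →+* F⟦X⟧) * Q).map constantCoeff = (ρ g).1 := by
        rw [Matrix.map_mul, Matrix.map_mul, hP, hQ, one_mul, mul_one, Matrix.map_map]
        ext a b
        simp
      exact congrFun (congrFun h4 i) j
    exact fun x => DFunLike.congr_fun h3 x
  have hfr := isFrac h
  have hinj : Function.Injective φ := by
    intro x y hxy
    apply Subtype.ext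
    rw [← hε, hxy, hε]
  let ψ : OO 2 ρ →+* LL F := (algebraMap F⟦X⟧ (LL F)).comp φ.toRingHom
  have hψ : Function.Injective ψ := by
    intro x y hxy
    exact hinj (IsFractionRing.injective F⟦X⟧ (LL F) hxy)
  let f : F →+* LL F := IsFractionRing.lift (A := OO 2 ρ) hψ
  have hf : ∀ x : OO 2 ρ, f (x : F) = algebraMap F⟦X⟧ (LL F) (φ x) := fun x =>
    IsFractionRing.lift_algebraMap hψ x
  refine ⟨f, fun g i j => ?_, fun z c hz => ?_⟩
  · rw [← hr, ← hφ]
    exact hf ⟨(ρ g).1 i j, mem_OO ρ g i j⟩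
  · obtain ⟨a, ha, b, hb, hb0, hab⟩ := h.frac z
    have h1 : f z * f b = f a := by rw [← map_mul, hab]
    rw [hz, algebraMap_LL, hf ⟨a, ha⟩, hf ⟨b, hb⟩, ← map_mul] at h1
    have h2 := IsFractionRing.injective F⟦X⟧ (LL F) h1
    have h3 := congrArg (constantCoeff (R := F)) h2
    rw [map_mul, hε, hε, constantCoeff_C] at h3
    change c * b = a at h3
    rw [← hab] at h3
    exact mul_right_cancel₀ hb0 h3

omit [Algebra (ZMod 2) F] in
/-- elements of `LL F` which are algebraic over `F` are constant -/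
theorem const_of_alg (y : LL F) (hy : IsAlgebraic F y) : ∃ c, y = algebraMap F (LL F) c := by
  have h1 : IsIntegral F y := isAlgebraic_iff_isIntegral.1 hy
  have h2 : IsIntegral F⟦X⟧ y := h1.tower_top
  obtain ⟨z, rfl⟩ := IsIntegrallyClosed.isIntegral_iff.1 h2
  refine ⟨constantCoeff z, ?_⟩
  rw [algebraMap_LL]
  congr 1
  -- the difference is algebraic and in the maximal ideal
  by_contra hne
  have hw : z - C (constantCoeff z) ≠ 0 := sub_ne_zero.2 hne
  obtain ⟨w, hwd⟩ : ∃ w, w = z - C (constantCoeff z) := ⟨_, rfl⟩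
  rw [← hwd] at hw
  have hw0 : constantCoeff w = 0 := by
    rw [hwd, map_sub, constantCoeff_C, sub_self]
  have hwa : IsAlgebraic F w := by
    have hz : IsAlgebraic F z := by
      refine (isAlgebraic_algebraMap_iff (A := LL F) ?_).1 hy
      exact IsFractionRing.injective F⟦X⟧ (LL F)
    rw [hwd]
    exact hz.sub (isAlgebraic_algebraMap (constantCoeff z))
  obtain ⟨p, hp0, hp⟩ := hwa
  -- divide by the powers of the variable
  have key : ∀ n : ℕ, ∀ p : Polynomial F, p.natDegree ≤ n → p ≠ 0 →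
      Polynomial.aeval w p = 0 → False := by
    intro n
    induction n with
    | zero =>
      intro p hd hp0 hp
      obtain ⟨c, rfl⟩ : ∃ c, p = Polynomial.C c := ⟨_, Polynomial.eq_C_of_natDegree_le_zero hd⟩
      rw [Polynomial.aeval_C] at hp
      apply hp0
      have : c = 0 := by
        have h3 := congrArg (constantCoeff (R := F)) hp
        rw [map_zero] at h3
        exact h3
      rw [this, map_zero]
    | succ n ih =>
      intro p hd hp0 hp
      have h4 : Polynomial.divX p * Polynomial.X + Polynomial.C (p.coeff 0) = p :=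
        Polynomial.divX_mul_X_add p
      rw [← h4, map_add, map_mul, Polynomial.aeval_X, Polynomial.aeval_C] at hp
      have h5 : p.coeff 0 = 0 := by
        have h6 := congrArg (constantCoeff (R := F)) hp
        rw [map_add, map_mul, hw0, mul_zero, zero_add, map_zero] at h6
        exact h6
      rw [h5, map_zero, add_zero] at hp
      have h7 : Polynomial.aeval w (Polynomial.divX p) = 0 := (mul_eq_zero.1 hp).resolve_right hw
      refine ih (Polynomial.divX p) ?_ ?_ h7
      · rw [Polynomial.natDegree_divX_eq_natDegree_tsub_one]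
        omega
      · intro h8
        apply hp0
        rw [← h4, h8, h5, zero_mul, map_zero, add_zero]
  exact key _ p le_rfl hp0 hp

/-- the criterion for transcendence -/
theorem transc {K F L : Type} [Field K] [Field F] [Field L] [Algebra K F] [Algebra F L]
    (f : F →+* L) (hc : ∀ y : L, IsAlgebraic F y → ∃ c, y = algebraMap F L c)
    (S : Subalgebra K F) (hS : ∀ w ∈ S, f w = algebraMap F L w) (z : F)
    (hz : ∀ c, f z ≠ algebraMap F L c) : Transcendental S z := by
  rintro ⟨p, hp0, hp⟩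
  have h1 : IsAlgebraic F (f z) := by
    refine ⟨p.map (algebraMap S F), ?_, ?_⟩
    · intro h0
      exact hp0 ((Polynomial.map_eq_zero_iff (FaithfulSMul.algebraMap_injective S F)).1 h0)
    · rw [Polynomial.aeval_def, Polynomial.eval₂_map]
      have h2 : (algebraMap F L).comp (algebraMap S F) = f.comp (algebraMap S F) := by
        ext w
        exact (hS w.1 w.2).symm
      rw [h2, ← Polynomial.hom_eval₂, ← Polynomial.aeval_def, hp, map_zero]
  obtain ⟨c, h3⟩ := hc _ h1
  exact hz c h3

end FrH
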