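import Pool.Agent.Lib.MP_305fdd_al.Fr.N.H.UR

/-!
# MP_305fdd_al, F_r, section H: entries of matrices of determinant one
-/

set_option autoImplicit false

namespace FrH

open Matrix

variable {R S : Type*} [CommRing R] [CommRing S]

theorem one_ent (a b : Fin 2) : (1 : SL2 R) a b = if a = b then 1 else 0 := by
  have h : ((1 : SL2 R) : Matrix (Fin 2) (Fin 2) R) = 1 := Matrix.SpecialLinearGroup.coe_one
  rw [← Matrix.one_apply, ← h]

theorem mul_ent (g h : SL2 R) (a b : Fin 2) : (g * h) a b = g a 0 * h 0 b + g a 1 * h 1 b := by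
  have h1 : ((g * h : SL2 R) : Matrix (Fin 2) (Fin 2) R) =
    (g : Matrix (Fin 2) (Fin 2) R) * (h : Matrix (Fin 2) (Fin 2) R) := Matrix.SpecialLinearGroup.coe_mul _ _
  rw [h1, Matrix.mul_apply, Fin.sum_univ_two]

theorem inv_eq (g : SL2 R) : ((g⁻¹ : SL2 R) : Matrix (Fin 2) (Fin 2) R) =
    !![g 1 1, - g 0 1; - g 1 0, g 0 0] := by
  have h1 : ((g⁻¹ : SL2 R) : Matrix (Fin 2) (Fin 2) R) =
    adjugate (g : Matrix (Fin 2) (Fin 2) R) := Matrix.SpecialLinearGroup.coe_inv _
  rw [h1, Matrix.adjugate_fin_two]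

theorem inv_00 (g : SL2 R) : g⁻¹ 0 0 = g 1 1 := by rw [inv_eq]; rfl
theorem inv_01 (g : SL2 R) : g⁻¹ 0 1 = - g 0 1 := by rw [inv_eq]; rfl
theorem inv_10 (g : SL2 R) : g⁻¹ 1 0 = - g 1 0 := by rw [inv_eq]; rfl
theorem inv_11 (g : SL2 R) : g⁻¹ 1 1 = g 0 0 := by rw [inv_eq]; rfl

theorem det_eq (g : SL2 R) : g 0 0 * g 1 1 - g 0 1 * g 1 0 = 1 := by
  have := g.2
  rwa [Matrix.det_fin_two] at this

theorem map_ent (f : R →+* S) (g : SL2 R) (a b : Fin 2) :
    smap f g a b = f (g a b) := rfl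

theorem ext_ent {g h : SL2 R} (h00 : g 0 0 = h 0 0) (h01 : g 0 1 = h 0 1) (h10 : g 1 0 = h 1 0)
    (h11 : g 1 1 = h 1 1) : g = h := by
  apply Matrix.SpecialLinearGroup.ext
  intro a b
  fin_cases a <;> fin_cases b
  · exact h00
  · exact h01
  · exact h10
  · exact h11

/-- the matrix with given entries -/
def mk4 (a b c d : R) (h : a * d - b * c = 1) : SL2 R :=
  ⟨!![a, b; c, d], by rw [Matrix.det_fin_two_of]; exact h⟩

theorem mk4_00 (a b c d : R) (h : a * d - b * c = 1) : mk4 a b c d h 0 0 = a := rfl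
theorem mk4_01 (a b c d : R) (h : a * d - b * c = 1) : mk4 a b c d h 0 1 = b := rfl
theorem mk4_10 (a b c d : R) (h : a * d - b * c = 1) : mk4 a b c d h 1 0 = c := rfl
theorem mk4_11 (a b c d : R) (h : a * d - b * c = 1) : mk4 a b c d h 1 1 = d := rfl

/-- the matrix of determinant one with given entries at the places `(0,0)`, `(0,1)`, `(1,0)` -/
def el (x y z w : R) (h : (1 + x) * w = 1) : SL2 R :=
  mk4 (1 + x) y z ((1 + y * z) * w) (by linear_combination (1 + y * z) * h)

theorem el_00 (x y z w : R) (h : (1 + x) * w = 1) : el x y z w h 0 0 = 1 + x := rfl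
theorem el_01 (x y z w : R) (h : (1 + x) * w = 1) : el x y z w h 0 1 = y := rfl
theorem el_10 (x y z w : R) (h : (1 + x) * w = 1) : el x y z w h 1 0 = z := rfl
theorem el_11 (x y z w : R) (h : (1 + x) * w = 1) :
    el x y z w h 1 1 = (1 + y * z) * w := rfl

/-- every matrix is determined by three entries if the first one is a unit -/
theorem eq_el (g : SL2 R) (w : R) (h : (1 + (g 0 0 - 1)) * w = 1) :
    g = el (g 0 0 - 1) (g 0 1) (g 1 0) w h := by
  refine ext_ent ?_ ?_ ?_ ?_
  · rw [el_00]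
    ring
  · rw [el_01]
  · rw [el_10]
  · rw [el_11]
    have := det_eq g
    linear_combination w * this + (- g 1 1) * h

theorem map_el (f : R →+* S) (x y z w : R) (h : (1 + x) * w = 1) :
    smap f (el x y z w h) = el (f x) (f y) (f z) (f w)
      (by rw [← map_one f, ← map_add, ← map_mul, h]) := by
  refine ext_ent ?_ ?_ ?_ ?_
  · rw [map_ent, el_00, el_00, map_add, map_one]
  · rw [map_ent, el_01, el_01]
  · rw [map_ent, el_10, el_10]
  · rw [map_ent, el_11, el_11, map_mul, map_add, map_one, map_mul]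

theorem el_congr {x y z w x' y' z' w' : R} {h : (1 + x) * w = 1} {h' : (1 + x') * w' = 1}
    (hx : x = x') (hy : y = y') (hz : z = z') (hw : w = w') : el x y z w h = el x' y' z' w' h' := by
  subst hx; subst hy; subst hz; subst hw
  rfl

/-- the subgroup of matrices with entries in a subring -/
def entS (S : Subring R) : Subgroup (SL2 R) where
  carrier := {g | ∀ a b, g a b ∈ S}
  one_mem' := by
    intro a b
    rw [one_ent]
    split_ifs
    · exact S.one_mem
    · exact S.zero_mem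
  mul_mem' := by
    intro g h hg hh a b
    rw [mul_ent]
    exact S.add_mem (S.mul_mem (hg _ _) (hh _ _)) (S.mul_mem (hg _ _) (hh _ _))
  inv_mem' := by
    intro g hg a b
    fin_cases a <;> fin_cases b
    · change g⁻¹ 0 0 ∈ S
      rw [inv_00]
      exact hg _ _
    · change g⁻¹ 0 1 ∈ S
      rw [inv_01]
      exact S.neg_mem (hg _ _)
    · change g⁻¹ 1 0 ∈ S
      rw [inv_10]
      exact S.neg_mem (hg _ _)
    · change g⁻¹ 1 1 ∈ S
      rw [inv_11]
      exact hg _ _

theorem mem_entS {S : Subring R} {g : SL2 R} : g ∈ entS S ↔ ∀ a b, g a b ∈ S := Iff.rfl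

end FrH
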