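import Pool.Agent.Lib.MP_305fdd_al.LW.Series
import Pool.Agent.Lib.MP_305fdd_al.Fr.N.H.Ent

/-!
# MP_305fdd_al, F_r, section H: representations in `SL₂` over power series rings
-/

set_option autoImplicit false

namespace FrH

open Finsupp Matrix Pool.Agent.Lib.MP_305fdd_al Pool.Agent.Lib.MP_305fdd_al.LW

theorem series {n : ℕ} {Λ : Type} [Group Λ] (Φ : NatBij Λ (FreeGroup (Fin n)))
    (F : Type) [Field F] [Finite F] (R : Type) [CommRing R] [Finite R] (π : R →+* F)
    (σ : F →+* R) (hσ : ∀ c, π (σ c) = c) (k : ℕ) (hk : RingHom.ker π ^ k = ⊥)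
    (r : Λ →* SL2 R) :
    ∃ (ρ : Λ →* SL2 (MvPowerSeries (Fin n × Fin 3) F))
      (η : MvPowerSeries (Fin n × Fin 3) F →+* R),
      (∀ c, η (MvPowerSeries.C c) = σ c) ∧
      (∀ x a b, η (ρ x a b) = r x a b) ∧
      ∀ S : Subalgebra F (MvPowerSeries (Fin n × Fin 3) F), (∀ x a b, ρ x a b ∈ S) →
        ∀ i, ∃ b ∈ S, ∀ x : (Fin n × Fin 3) →₀ ℕ, degree x < 2 →
          MvPowerSeries.coeff x b = MvPowerSeries.coeff x (MvPowerSeries.X i) := by
  classical
  set ι : Type := Fin n × Fin 3 with hι
  have hfin : ∀ j, Finite (TR ι F j) := finite_TR ι F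
  -- the representation of the free group corresponding to `r`
  let M : Fin n → SL2 R := fun i => Φ.toFun _ r (FreeGroup.of i)
  let mb : Fin n → SL2 F := fun i => smap π (M i)
  -- the generic matrices
  have hunit : ∀ i : Fin n, ∃ w : MvPowerSeries ι F, (1 + MvPowerSeries.X (i, 0)) * w = 1 := by
    intro i
    have h1 : IsUnit (1 + MvPowerSeries.X (i, 0) : MvPowerSeries ι F) := by
      rw [MvPowerSeries.isUnit_iff_constantCoeff]
      simp
    exact h1.exists_right_inv
  choose w hw using hunit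
  let el' : Fin n → SL2 (MvPowerSeries ι F) := fun i =>
    el (MvPowerSeries.X (i, 0)) (MvPowerSeries.X (i, 1)) (MvPowerSeries.X (i, 2)) (w i) (hw i)
  let mc : Fin n → SL2 (MvPowerSeries ι F) := fun i => smap MvPowerSeries.C (mb i)
  let u : Fin n → SL2 (MvPowerSeries ι F) := fun i => mc i * el' i
  let r'inf : FreeGroup (Fin n) →* SL2 (MvPowerSeries ι F) := FreeGroup.lift u
  let r' : ∀ j, FreeGroup (Fin n) →* SL2 (TR ι F j) := fun j =>
    (smap (tau ι F j)).comp r'inf
  let rj : ∀ j, Λ →* SL2 (TR ι F j) := fun j => Φ.symm.toFun _ (r' j)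
  have hcompat' : ∀ {i j : ℕ} (h : i ≤ j),
      (smap (fac ι F h)).comp (r' j) = r' i := by
    intro i j h
    refine MonoidHom.ext fun x => Matrix.SpecialLinearGroup.ext _ _ fun a b => ?_
    change fac ι F h (tau ι F j (r'inf x a b)) = tau ι F i (r'inf x a b)
    rw [← RingHom.comp_apply, fac_tau]
  have hcompat : ∀ {i j : ℕ} (h : i ≤ j),
      (smap (fac ι F h)).comp (rj j) = rj i := by
    intro i j h
    change _ = Φ.symm.toFun _ (r' i)
    rw [← hcompat' h, Φ.symm.nat]
  -- the limit
  have hlim : ∀ (x : Λ) (a b : Fin 2), ∃ p : MvPowerSeries ι F, ∀ j, tau ι F j p =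
      rj j x a b := by
    intro x a b
    refine exists_lim ι F _ fun {i j} h => ?_
    rw [← map_ent, ← hcompat h]
    rfl
  choose p hp using hlim
  let ρ : Λ →* SL2 (MvPowerSeries ι F) :=
    { toFun := fun x => ⟨Matrix.of fun a b => p x a b, by
        rw [Matrix.det_fin_two]
        refine tau_sep ι F fun j => ?_
        rw [map_sub, map_mul, map_mul, map_one]
        simp only [Matrix.of_apply, hp]
        exact det_eq _⟩
      map_one' := by
        refine Matrix.SpecialLinearGroup.ext _ _ fun a b => ?_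
        refine tau_sep ι F fun j => ?_
        change tau ι F j (p 1 a b) = _
        rw [hp, map_one, one_ent, one_ent]
        split_ifs
        · rw [map_one]
        · rw [map_zero]
      map_mul' := by
        intro x y
        refine Matrix.SpecialLinearGroup.ext _ _ fun a b => ?_
        refine tau_sep ι F fun j => ?_
        change tau ι F j (p (x * y) a b) = _
        rw [hp, map_mul, mul_ent, mul_ent, map_add, map_mul, map_mul]
        change _ = tau ι F j (p x a 0) * tau ι F j (p y 0 b) +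
          tau ι F j (p x a 1) * tau ι F j (p y 1 b)
        rw [hp, hp, hp, hp] }
  have hρ : ∀ x a b, ρ x a b = p x a b := fun _ _ _ => rfl
  -- the map to `R`
  let D : Fin n → SL2 R := fun i => (smap σ (mb i))⁻¹ * M i
  have hD : ∀ i, smap π (D i) = 1 := by
    intro i
    have h1 : smap π (smap σ (mb i)) = mb i := by
      exact Matrix.SpecialLinearGroup.ext _ _ fun a b => hσ _
    change smap π ((smap σ (mb i))⁻¹ * M i) = 1
    rw [map_mul, map_inv, h1]
    exact inv_mul_cancel _
  let c : ι → R := fun q => ![D q.1 0 0 - 1, D q.1 0 1, D q.1 1 0] q.2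
  have hc : ∀ q, π (c q) = 0 := by
    rintro ⟨i, q⟩
    have h1 : ∀ a b, π (D i a b) = (1 : SL2 F) a b := by
      intro a b
      rw [← hD i]
      rfl
    fin_cases q
    · change π (D i 0 0 - 1) = 0
      rw [map_sub, h1, map_one]
      simp
    · change π (D i 0 1) = 0
      rw [h1]
      simp
    · change π (D i 1 0) = 0
      rw [h1]
      simp
  let ev : MvPolynomial ι F →+* R := MvPolynomial.eval₂Hom σ c
  have hev : ∀ f ∈ MvPolynomial.idealOfVars ι F ^ k, ev f = 0 := by
    intro f hf
    have h1 : (MvPolynomial.idealOfVars ι F).map ev ≤ RingHom.ker π := by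
      rw [Ideal.map_le_iff_le_comap, MvPolynomial.idealOfVars, Ideal.span_le]
      rintro _ ⟨q, rfl⟩
      rw [SetLike.mem_coe, Ideal.mem_comap, RingHom.mem_ker]
      have : ev (MvPolynomial.X q) = c q := MvPolynomial.eval₂Hom_X' _ _ _
      rw [this, hc]
    have h2 : ev f ∈ (MvPolynomial.idealOfVars ι F ^ k).map ev := Ideal.mem_map_of_mem _ hf
    rw [Ideal.map_pow] at h2
    have h3 := Ideal.pow_right_mono h1 k h2
    rw [hk] at h3
    exact h3
  let evk : TR ι F k →+* R := Ideal.Quotient.lift _ ev hev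
  have hevX : ∀ q, evk (tau ι F k (MvPowerSeries.X q)) = c q := by
    intro q
    rw [← MvPolynomial.coe_X, tau_coe]
    exact MvPolynomial.eval₂Hom_X' _ _ _
  have hevC : ∀ y, evk (tau ι F k (MvPowerSeries.C y)) = σ y := by
    intro y
    rw [← MvPolynomial.coe_C, tau_coe]
    exact MvPolynomial.eval₂Hom_C _ _ _
  let φ : MvPowerSeries ι F →+* R := evk.comp (tau ι F k)
  have hφX : ∀ q, φ (MvPowerSeries.X q) = c q := hevX
  have hφC : ∀ y, φ (MvPowerSeries.C y) = σ y := hevC
  have hφu : ∀ i, smap φ (u i) = M i := by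
    intro i
    have h1 : smap φ (mc i) = smap σ (mb i) := by
      exact Matrix.SpecialLinearGroup.ext _ _ fun a b => hφC _
    have h2 : smap φ (el' i) = D i := by
      have hw' : (1 + (D i 0 0 - 1)) * φ (w i) = 1 := by
        have h3 := congrArg φ (hw i)
        rw [map_mul, map_add, map_one, hφX] at h3
        exact h3
      rw [eq_el (D i) _ hw']
      change smap φ (el _ _ _ _ (hw i)) = _
      rw [map_el]
      exact el_congr (hφX _) (hφX _) (hφX _) rfl
    change smap φ (mc i * el' i) = M i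
    rw [map_mul, h1, h2]
    exact mul_inv_cancel_left _ _
  have hevk : (smap evk).comp (r' k) = Φ.toFun _ r := by
    refine FreeGroup.ext_hom _ _ fun i => ?_
    have h1 : (smap evk).comp (r' k) (FreeGroup.of i) =
        smap φ (FreeGroup.lift u (FreeGroup.of i)) := rfl
    rw [h1, FreeGroup.lift_apply_of, hφu]
  have hrk : (smap evk).comp (rj k) = r := by
    change (smap evk).comp (Φ.symm.toFun _ (r' k)) = r
    rw [← Φ.symm.nat, hevk]
    exact Φ.left_inv _ r
  refine ⟨ρ, φ, hφC, ?_, ?_⟩
  · intro x a b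
    change evk (tau ι F k (p x a b)) = _
    rw [hp, ← map_ent, ← MonoidHom.comp_apply, hrk]
  · intro S hS
    -- the image of `S` in the second truncation
    let S₂ : Subring (TR ι F 2) := S.toSubring.map (tau ι F 2)
    have h1 : (rj 2).range ≤ entS S₂ := by
      have h2 : ∀ x a b, rj 2 x a b ∈ S₂ := by
        intro x a b
        rw [← hp]
        exact ⟨_, hS x a b, rfl⟩
      rintro _ ⟨x, rfl⟩ a b
      exact h2 x a b
    have h3 := Φ.range_le (rj 2) _ h1
    have h4 : Φ.toFun _ (rj 2) = r' 2 := Φ.right_inv _ (r' 2)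
    rw [h4] at h3
    have h5 : ∀ i, r' 2 (FreeGroup.of i) ∈ entS S₂ := fun i => h3 ⟨FreeGroup.of i, rfl⟩
    have hF : ∀ y : F, tau ι F 2 (MvPowerSeries.C y) ∈ S₂ := fun y =>
      ⟨_, S.algebraMap_mem y, rfl⟩
    have h6 : ∀ i, smap (tau ι F 2) (mc i) ∈ entS S₂ := by
      intro i a b
      exact hF _
    have h7 : ∀ i, smap (tau ι F 2) (el' i) ∈ entS S₂ := by
      intro i
      have h8 : smap (tau ι F 2) (el' i) =
          (smap (tau ι F 2) (mc i))⁻¹ * r' 2 (FreeGroup.of i) := by
        have h9 : r' 2 (FreeGroup.of i) = smap (tau ι F 2) (mc i * el' i) := by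
          change smap (tau ι F 2) (FreeGroup.lift u (FreeGroup.of i)) = _
          rw [FreeGroup.lift_apply_of]
        rw [h9, map_mul, inv_mul_cancel_left]
      rw [h8]
      exact (entS S₂).mul_mem ((entS S₂).inv_mem (h6 i)) (h5 i)
    have hX : ∀ q : ι, tau ι F 2 (MvPowerSeries.X q) ∈ S₂ := by
      rintro ⟨i, q⟩
      fin_cases q
      · have h8 := h7 i 0 0
        have h9 : smap (tau ι F 2) (el' i) 0 0 =
          1 + tau ι F 2 (MvPowerSeries.X (i, 0)) := by
          change tau ι F 2 (1 + MvPowerSeries.X (i, 0)) = _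
          rw [map_add, map_one]
        rw [h9] at h8
        have h10 := S₂.sub_mem h8 S₂.one_mem
        rwa [add_sub_cancel_left] at h10
      · exact h7 i 0 1
      · exact h7 i 1 0
    intro q
    obtain ⟨s, hs, hs2⟩ := hX q
    exact ⟨s, hs, (tau_eq_iff ι F 2 _ _).1 hs2⟩

end FrH
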