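import Pool.Agent.Lib.MP_305fdd_al.LW.Domain
import Pool.Agent.Lib.MP_305fdd_al.LW.Stepanov
import Pool.Agent.Lib.MP_305fdd_al.LW.Cover
import Pool.Agent.Lib.MP_305fdd_al.LW.Main
import Pool.Agent.Lib.MP_305fdd_al.Fr.N.H.Ser

/-!
# MP_305fdd_al, F_r, section H: the universal representation ring of a group in the genus of a free
group is a domain
-/

set_option autoImplicit false

namespace FrH

open Finsupp Matrix Pool.Agent.Lib.MP_305fdd_al Pool.Agent.Lib.MP_305fdd_al.LW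

/-- the domain -/
theorem exists_domain_core {n : ℕ} {Λ : Type} [Group Λ] [Group.FG Λ]
    (Φ : NatBij Λ (FreeGroup (Fin n))) (ℓ : ℕ) [Fact ℓ.Prime]
    (F : Type) [Field F] [Finite F] [Algebra (ZMod ℓ) F] (R : Type) [CommRing R] [Finite R]
    (π : R →+* F) (σ : F →+* R) (hσ : ∀ c, π (σ c) = c) (k : ℕ) (hk : RingHom.ker π ^ k = ⊥)
    (q : UR (ZMod ℓ) Λ →+* R) (x : UR (ZMod ℓ) Λ) (hx : q x ≠ 0) :
    ∃ (B : Type) (_ : CommRing B) (_ : IsDomain B) (_ : Algebra F B) (_ : Algebra.FiniteType F B)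
      (θ : UR (ZMod ℓ) Λ →+* B),
      θ x ≠ 0 ∧ Algebra.adjoin F (Set.range θ) = ⊤ ∧
      ∃ s : Fin n × Fin 3 → B, AlgebraicIndependent F s := by
  classical
  let r : Λ →* SL2 R := (smap q).comp (UR.univ (ZMod ℓ) Λ)
  have hr : ∀ y a b, r y a b = q (UR.univ (ZMod ℓ) Λ y a b) := fun _ _ _ => rfl
  obtain ⟨ρ, η, hη, hρ, hS⟩ := series Φ F R π σ hσ k hk r
  let θ₀ : UR (ZMod ℓ) Λ →+* MvPowerSeries (Fin n × Fin 3) F :=
    UR.lift (MvPowerSeries.C.comp (algebraMap (ZMod ℓ) F)) ρ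
  have hθη : η.comp θ₀ = q := by
    refine UR.hom_ext (fun c => ?_) fun y a b => ?_
    · exact DFunLike.congr_fun (Subsingleton.elim
        ((η.comp θ₀).comp (algebraMap (ZMod ℓ) _)) (q.comp (algebraMap (ZMod ℓ) _))) c
    · rw [RingHom.comp_apply]
      change η (UR.lift _ ρ _) = _
      rw [UR.lift_univ, hρ, hr]
  have hθx : θ₀ x ≠ 0 := by
    intro h
    apply hx
    rw [← hθη, RingHom.comp_apply, h, map_zero]
  let B : Subalgebra F (MvPowerSeries (Fin n × Fin 3) F) :=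
    Algebra.adjoin F (Set.range θ₀)
  have hmem : ∀ y, θ₀ y ∈ B := fun y => Algebra.subset_adjoin ⟨y, rfl⟩
  -- finite type
  have hB : B.FG := by
    obtain ⟨T, hT⟩ := (inferInstance : Algebra.FiniteType (ZMod ℓ) (UR (ZMod ℓ) Λ)).out
    refine ⟨T.image θ₀, le_antisymm (Algebra.adjoin_mono ?_) (Algebra.adjoin_le ?_)⟩
    · intro y hy
      obtain ⟨z, _, rfl⟩ := Finset.mem_image.1 (Finset.mem_coe.1 hy)
      exact ⟨z, rfl⟩
    · rintro _ ⟨y, rfl⟩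
      have hy : y ∈ Algebra.adjoin (ZMod ℓ) (T : Set (UR (ZMod ℓ) Λ)) := hT ▸ trivial
      induction hy using Algebra.adjoin_induction with
      | mem y hy =>
        exact Algebra.subset_adjoin (Finset.mem_coe.2 (Finset.mem_image_of_mem _ hy))
      | algebraMap c =>
        have : θ₀ (algebraMap (ZMod ℓ) _ c) = MvPowerSeries.C (algebraMap (ZMod ℓ) F c) :=
          UR.lift_algebraMap _ _ _
        rw [this]
        exact Subalgebra.algebraMap_mem _ (algebraMap (ZMod ℓ) F c)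
      | add y z _ _ h1 h2 =>
        rw [map_add]
        exact add_mem h1 h2
      | mul y z _ _ h1 h2 =>
        rw [map_mul]
        exact mul_mem h1 h2
  let θ : UR (ZMod ℓ) Λ →+* B := θ₀.codRestrict B hmem
  have hρB : ∀ y a b, ρ y a b ∈ B := by
    intro y a b
    have h1 : θ₀ (UR.univ (ZMod ℓ) Λ y a b) = ρ y a b := UR.lift_univ _ _ _ _ _
    rw [← h1]
    exact hmem _
  choose b hbB hb using hS B hρB
  have hdomP : IsDomain (MvPowerSeries (Fin n × Fin 3) F) := NoZeroDivisors.to_isDomain _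
  have hdom : IsDomain B := inferInstanceAs (IsDomain B.toSubring)
  refine ⟨B, inferInstance, hdom, inferInstance, B.fg_iff_finiteType.1 hB, θ, ?_, ?_,
    fun i => ⟨b i, hbB i⟩, ?_⟩
  · intro h
    exact hθx (congrArg Subtype.val h)
  · have h1 : Set.range θ = (Subtype.val : B → _) ⁻¹' (Set.range θ₀) := by
      ext y
      constructor
      · rintro ⟨z, rfl⟩
        exact ⟨z, rfl⟩
      · rintro ⟨z, hz⟩
        exact ⟨z, Subtype.ext hz⟩
    rw [h1]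
    exact Algebra.adjoin_adjoin_coe_preimage
  · refine AlgebraicIndependent.of_comp B.val ?_
    exact algebraicIndependent_of_trunc b hb

/-- PIECE R for `SL₂` -/
theorem exists_domain {n : ℕ} {Λ : Type} [Group Λ] [Group.FG Λ]
    (h : Pool.Agent.MP_305fdd_al.SameFiniteQuotients Λ (FreeGroup (Fin n))) (ℓ : ℕ)
    [Fact ℓ.Prime] (x : UR (ZMod ℓ) Λ) (hx : x ≠ 0) :
    ∃ (F : Type) (_ : Field F) (_ : Finite F) (_ : Algebra (ZMod ℓ) F) (B : Type)
      (_ : CommRing B) (_ : IsDomain B) (_ : Algebra F B) (_ : Algebra.FiniteType F B)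
      (θ : UR (ZMod ℓ) Λ →+* B),
      θ x ≠ 0 ∧ Algebra.adjoin F (Set.range θ) = ⊤ ∧
      ∃ s : Fin n × Fin 3 → B, AlgebraicIndependent F s := by
  classical
  obtain ⟨Φ⟩ := exists_natBij h
  have hnt : Nontrivial (UR (ZMod ℓ) Λ) := ⟨⟨x, 0, hx⟩⟩
  have hnoeth : IsNoetherianRing (UR (ZMod ℓ) Λ) :=
    Algebra.FiniteType.isNoetherianRing (ZMod ℓ) _
  have hft : Algebra.FiniteType ℤ (UR (ZMod ℓ) Λ) := by
    have h1 : Algebra.FiniteType ℤ (ZMod ℓ) :=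
      Algebra.FiniteType.of_surjective (Algebra.ofId ℤ (ZMod ℓ)) ZMod.intCast_surjective
    exact Algebra.FiniteType.trans h1 inferInstance
  obtain ⟨𝔪, hm, k, hxk⟩ : ∃ 𝔪 : Ideal (UR (ZMod ℓ) Λ), 𝔪.IsMaximal ∧ ∃ k : ℕ,
      x ∉ 𝔪 ^ k := by
    by_contra hcon
    push Not at hcon
    exact hx (Rep.eq_zero_of_forall_pow x hcon)
  have hk0 : k ≠ 0 := by
    rintro rfl
    rw [pow_zero, Ideal.one_eq_top] at hxk
    exact hxk Submodule.mem_top
  have hfinR : Finite (UR (ZMod ℓ) Λ ⧸ 𝔪 ^ k) := Rep.finite_quotient_pow _ 𝔪 hm k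
  have hfinF : Finite (UR (ZMod ℓ) Λ ⧸ 𝔪) := by
    have := Rep.finite_quotient_pow _ 𝔪 hm 1
    rwa [pow_one] at this
  let instF : Field (UR (ZMod ℓ) Λ ⧸ 𝔪) := Ideal.Quotient.field 𝔪
  have hle : 𝔪 ^ k ≤ 𝔪 := Ideal.pow_le_self hk0
  have hne : 𝔪 ^ k ≠ ⊤ := fun h => hm.ne_top (top_le_iff.1 (h ▸ hle))
  have hntR : Nontrivial (UR (ZMod ℓ) Λ ⧸ 𝔪 ^ k) := Ideal.Quotient.nontrivial_iff.2 hne
  have hcR : CharP (UR (ZMod ℓ) Λ ⧸ 𝔪 ^ k) ℓ :=
    charP_of_injective_algebraMap (algebraMap (ZMod ℓ) _).injective ℓ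
  have hcF : CharP (UR (ZMod ℓ) Λ ⧸ 𝔪) ℓ :=
    charP_of_injective_algebraMap (algebraMap (ZMod ℓ) _).injective ℓ
  let _ : Fintype (UR (ZMod ℓ) Λ ⧸ 𝔪) := Fintype.ofFinite _
  obtain ⟨s, hs, hcard⟩ := FiniteField.card (UR (ZMod ℓ) Λ ⧸ 𝔪) ℓ
  let π : (UR (ZMod ℓ) Λ ⧸ 𝔪 ^ k) →+* (UR (ZMod ℓ) Λ ⧸ 𝔪) :=
    Ideal.Quotient.factor hle
  have hpow : ∀ y : UR (ZMod ℓ) Λ ⧸ 𝔪, y ^ (ℓ ^ ((s : ℕ) * k)) = y := by
    intro y
    rw [pow_mul, ← hcard]
    exact FiniteField.pow_card_pow k y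
  have hbig : k ≤ ℓ ^ ((s : ℕ) * k) := by
    calc k ≤ ℓ ^ k := (Nat.lt_pow_self (Fact.out : ℓ.Prime).one_lt).le
      _ ≤ ℓ ^ ((s : ℕ) * k) := Nat.pow_le_pow_right (Fact.out : ℓ.Prime).pos
          (Nat.le_mul_of_pos_left _ s.pos)
  let fr : UR (ZMod ℓ) Λ →+* (UR (ZMod ℓ) Λ ⧸ 𝔪 ^ k) :=
    (iterateFrobenius (UR (ZMod ℓ) Λ ⧸ 𝔪 ^ k) ℓ ((s : ℕ) * k)).comp
      (Ideal.Quotient.mk (𝔪 ^ k))
  have hfr : ∀ y, fr y = (Ideal.Quotient.mk (𝔪 ^ k) y) ^ (ℓ ^ ((s : ℕ) * k)) := fun y =>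
    iterateFrobenius_def _ _ _
  have hfr0 : ∀ y ∈ 𝔪, fr y = 0 := by
    intro y hy
    rw [hfr, ← map_pow, Ideal.Quotient.eq_zero_iff_mem]
    exact Ideal.pow_le_pow_right hbig (Ideal.pow_mem_pow hy _)
  let σ : (UR (ZMod ℓ) Λ ⧸ 𝔪) →+* (UR (ZMod ℓ) Λ ⧸ 𝔪 ^ k) :=
    Ideal.Quotient.lift 𝔪 fr hfr0
  have hσ : ∀ c, π (σ c) = c := by
    intro c
    obtain ⟨y, rfl⟩ := Ideal.Quotient.mk_surjective c
    change π (fr y) = _
    rw [hfr, map_pow]
    exact hpow (Ideal.Quotient.mk 𝔪 y)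
  have hker : RingHom.ker π ^ k = ⊥ := by
    have h1 : RingHom.ker π = 𝔪.map (Ideal.Quotient.mk (𝔪 ^ k)) := Ideal.Quotient.factor_ker hle
    rw [h1, ← Ideal.map_pow, Ideal.map_quotient_self]
  obtain ⟨B, i1, i2, i3, i4, θ, hθ⟩ := exists_domain_core Φ ℓ (UR (ZMod ℓ) Λ ⧸ 𝔪)
    (UR (ZMod ℓ) Λ ⧸ 𝔪 ^ k) π σ hσ k hker (Ideal.Quotient.mk (𝔪 ^ k)) x
    (fun h0 => hxk (Ideal.Quotient.eq_zero_iff_mem.1 h0))
  exact ⟨_, instF, hfinF, inferInstance, B, i1, i2, i3, i4, θ, hθ⟩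

/-- the number of matrices of determinant one over a finite field -/
theorem card_SL2_le (E : Type) [Field E] [Finite E] : Nat.card (SL2 E) ≤ Nat.card E ^ 3 := by
  classical
  -- a matrix is determined by `(a, b, c)` if `a ≠ 0` and by `(0, b, d)` otherwise
  have : Nat.card E ^ 3 = Nat.card (E × E × E) := by
    rw [Nat.card_prod, Nat.card_prod]
    ring
  rw [this]
  let f : SL2 E → E × E × E := fun g =>
    if g 0 0 = 0 then (0, g 0 1, g 1 1) else (g 0 0, g 0 1, g 1 0)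
  refine Nat.card_le_card_of_injective f ?_
  intro g h hgh
  have hg := det_eq g
  have hh := det_eq h
  simp only [f] at hgh
  by_cases h1 : g 0 0 = 0
  · by_cases h2 : h 0 0 = 0
    · rw [if_pos h1, if_pos h2, Prod.mk.injEq, Prod.mk.injEq] at hgh
      obtain ⟨-, h3, h4⟩ := hgh
      rw [h1] at hg
      rw [h2] at hh
      have h5 : h 0 1 ≠ 0 := by
        intro h6
        rw [h6] at hh
        simp at hh
      have h7 : h 0 1 * (g 1 0 - h 1 0) = 0 := by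
        rw [h3] at hg
        linear_combination hh - hg
      refine ext_ent (h1.trans h2.symm) h3 ?_ h4
      have := (mul_eq_zero.1 h7).resolve_left h5
      exact sub_eq_zero.1 this
    · rw [if_pos h1, if_neg h2, Prod.mk.injEq] at hgh
      exact absurd hgh.1.symm h2
  · by_cases h2 : h 0 0 = 0
    · rw [if_neg h1, if_pos h2, Prod.mk.injEq] at hgh
      exact absurd hgh.1 h1
    · rw [if_neg h1, if_neg h2, Prod.mk.injEq, Prod.mk.injEq] at hgh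
      obtain ⟨h3, h4, h5⟩ := hgh
      have h7 : g 0 0 * (g 1 1 - h 1 1) = 0 := by
        rw [← h3, ← h4, ← h5] at hh
        linear_combination hg - hh
      refine ext_ent h3 h4 h5 ?_
      have := (mul_eq_zero.1 h7).resolve_left h1
      exact sub_eq_zero.1 this

/-- the number of points of the universal representation ring over a finite field -/
theorem card_points_le {n : ℕ} {Λ : Type} [Group Λ] [Group.FG Λ]
    (h : Pool.Agent.MP_305fdd_al.SameFiniteQuotients Λ (FreeGroup (Fin n))) (ℓ : ℕ)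
    [Fact ℓ.Prime] (E : Type) [Field E] [Finite E] [Algebra (ZMod ℓ) E] :
    Finite (UR (ZMod ℓ) Λ →+* E) ∧
    Nat.card (UR (ZMod ℓ) Λ →+* E) ≤ Nat.card E ^ (n * 3) := by
  have hfin : Finite (Λ →* SL2 E) := Pool.Agent.MP_305fdd_al.finite_hom Λ _
  refine ⟨Finite.of_injective _ (UR.equiv (Γ := Λ) ℓ E).injective, ?_⟩
  rw [Nat.card_congr (UR.equiv (Γ := Λ) ℓ E)]
  have h1 : Nat.card (Λ →* SL2 E) = Nat.card (FreeGroup (Fin n) →* SL2 E) :=
    hc_eq_of_same _ h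
  rw [h1, Nat.card_congr (FreeGroup.lift (α := Fin n) (β := SL2 E)).symm,
    Nat.card_fun, Nat.card_eq_fintype_card (α := Fin n), Fintype.card_fin]
  calc Nat.card (SL2 E) ^ n ≤ (Nat.card E ^ 3) ^ n := Nat.pow_le_pow_left (card_SL2_le E) n
    _ = Nat.card E ^ (n * 3) := by rw [← pow_mul, mul_comm]

/-- the lower bound for the number of points of a domain -/
theorem domainStatement : DomainStatement := by
  intro F _ _ B _ _ _ _ b hb ι _ s hs
  exact domain_bound' (fun d w hd => hyper_bound_of exists_cdata d w hd) F B b hb s hs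

/-- many points at which a given non-zero element does not vanish -/
theorem many_points {n : ℕ} {Λ : Type} [Group Λ]
    [Group.FG Λ] (h : Pool.Agent.MP_305fdd_al.SameFiniteQuotients Λ (FreeGroup (Fin n))) (ℓ : ℕ)
    [Fact ℓ.Prime] (x : UR (ZMod ℓ) Λ) (hx : x ≠ 0) :
    ∃ r C : ℕ, 0 < r ∧ ∀ (E : Type) [Field E] [Finite E] [Algebra (ZMod ℓ) E],
      r ∣ Module.finrank (ZMod ℓ) E → ∀ Q : ℕ, Nat.card E = Q ^ 2 →
      Nat.card E ^ (n * 3 + 1) ≤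
        Nat.card E * Nat.card {P : UR (ZMod ℓ) Λ →+* E // P x ≠ 0} +
          C * Q * Nat.card E ^ (n * 3) := by
  obtain ⟨F, _, _, _, B, _, _, _, _, θ, hθx, hθ, s, hs⟩ := exists_domain h ℓ x hx
  obtain ⟨F₁, _, _, _, C, hC⟩ := domainStatement F B (θ x) hθx s hs
  let _ : Algebra (ZMod ℓ) F₁ := ((algebraMap F F₁).comp (algebraMap (ZMod ℓ) F)).toAlgebra
  have hfin₁ : Module.Finite (ZMod ℓ) F₁ := Module.Finite.of_finite
  refine ⟨Module.finrank (ZMod ℓ) F₁, C, Module.finrank_pos, ?_⟩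
  intro E _ _ _ hdvd Q hQ
  obtain ⟨j⟩ := FiniteField.nonempty_algHom_of_finrank_dvd hdvd
  let _ : Algebra F E := (j.toRingHom.comp (algebraMap F F₁)).toAlgebra
  let j' : F₁ →ₐ[F] E := { j.toRingHom with commutes' := fun c => rfl }
  have h1 := hC E ⟨j'⟩ Q hQ
  have h2 : Fintype.card (Fin n × Fin 3) = n * 3 := by
    simp [Fintype.card_prod]
  rw [h2] at h1
  have hfinP : Finite (UR (ZMod ℓ) Λ →+* E) := (card_points_le h ℓ E).1
  have h3 : Nat.card {ψ : B →ₐ[F] E // ψ (θ x) ≠ 0} ≤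
      Nat.card {P : UR (ZMod ℓ) Λ →+* E // P x ≠ 0} := by
    refine Nat.card_le_card_of_injective
      (fun ψ => ⟨ψ.1.toRingHom.comp θ, ψ.2⟩) ?_
    rintro ⟨ψ, hψ⟩ ⟨ψ', hψ'⟩ heq
    apply Subtype.ext
    have h4 : ψ.toRingHom.comp θ = ψ'.toRingHom.comp θ := congrArg Subtype.val heq
    refine AlgHom.ext_of_adjoin_eq_top hθ ?_
    rintro _ ⟨y, rfl⟩
    exact DFunLike.congr_fun h4 y
  exact h1.trans (Nat.add_le_add_right (Nat.mul_le_mul_left _ h3) _)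

theorem noZeroDivisors {n : ℕ} {Λ : Type} [Group Λ] [Group.FG Λ]
    (h : Pool.Agent.MP_305fdd_al.SameFiniteQuotients Λ (FreeGroup (Fin n))) (ℓ : ℕ)
    [Fact ℓ.Prime] (x x' : UR (ZMod ℓ) Λ) (hxx : x * x' = 0) : x = 0 ∨ x' = 0 := by
  by_contra hcon
  push Not at hcon
  obtain ⟨hx, hx'⟩ := hcon
  obtain ⟨r, C, hr, H⟩ := many_points h ℓ x hx
  obtain ⟨r', C', hr', H'⟩ := many_points h ℓ x' hx'
  have hℓ : ℓ.Prime := Fact.out
  -- a large finite field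
  let e := r * r' * (C + C' + 1)
  have he : 0 < e := by positivity
  let E := GaloisField ℓ (e * 2)
  have hcard : Nat.card E = (ℓ ^ e) ^ 2 := by
    rw [← pow_mul]
    exact GaloisField.card ℓ (e * 2) (by positivity)
  have hfinE : Finite E := Nat.finite_of_card_ne_zero (by
    rw [hcard]
    have := hℓ.pos
    positivity)
  have hrank : Module.finrank (ZMod ℓ) E = e * 2 := GaloisField.finrank ℓ (by positivity)
  have h1 := H E (by
    rw [hrank]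
    exact ⟨r' * (C + C' + 1) * 2, by simp only [e]; ring⟩) (ℓ ^ e) hcard
  have h2 := H' E (by
    rw [hrank]
    exact ⟨r * (C + C' + 1) * 2, by simp only [e]; ring⟩) (ℓ ^ e) hcard
  obtain ⟨hfinP, h3⟩ := card_points_le h ℓ E
  -- the two sets of points are disjoint
  have h4 : Nat.card {P : UR (ZMod ℓ) Λ →+* E // P x ≠ 0} +
      Nat.card {P : UR (ZMod ℓ) Λ →+* E // P x' ≠ 0} ≤
      Nat.card (UR (ZMod ℓ) Λ →+* E) := by
    rw [← Nat.card_sum]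
    refine Nat.card_le_card_of_injective
      (Sum.elim Subtype.val Subtype.val) ?_
    have hdis : ∀ P : UR (ZMod ℓ) Λ →+* E, P x ≠ 0 → P x' ≠ 0 → False := by
      intro P hP hP'
      have := congrArg P hxx
      rw [map_mul, map_zero] at this
      rcases mul_eq_zero.1 this with h | h
      · exact hP h
      · exact hP' h
    rintro (⟨P, hP⟩ | ⟨P, hP⟩) (⟨P', hP'⟩ | ⟨P', hP'⟩) heq
    · exact congrArg Sum.inl (Subtype.ext heq)
    · exact (hdis P hP (by have : P = P' := heq; rw [this]; exact hP')).elim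
    · exact (hdis P (by have : P = P' := heq; rw [this]; exact hP') hP).elim
    · exact congrArg Sum.inr (Subtype.ext heq)
  obtain ⟨q, hq⟩ : ∃ q, q = Nat.card E := ⟨_, rfl⟩
  obtain ⟨D, hD⟩ : ∃ D, D = n * 3 := ⟨_, rfl⟩
  obtain ⟨Q, hQdef⟩ : ∃ Q, Q = ℓ ^ e := ⟨_, rfl⟩
  obtain ⟨a, ha⟩ : ∃ a, a = Nat.card {P : UR (ZMod ℓ) Λ →+* E // P x ≠ 0} := ⟨_, rfl⟩
  obtain ⟨a', ha'⟩ : ∃ a', a' = Nat.card {P : UR (ZMod ℓ) Λ →+* E // P x' ≠ 0} := ⟨_, rfl⟩
  rw [← ha, ← hD, ← hQdef, ← hq] at h1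
  rw [← ha', ← hD, ← hQdef, ← hq] at h2
  rw [← ha, ← ha'] at h4
  rw [← hq, ← hD] at h3
  rw [← hQdef, ← hq] at hcard
  have hq0 : 0 < q := hq ▸ Nat.card_pos
  have hqD : 0 < q ^ D := pow_pos hq0 D
  have h5 : q * (a + a') ≤ q * q ^ D := Nat.mul_le_mul_left _ (h4.trans h3)
  have h6 : q ^ D * q ≤ q ^ D * ((C + C') * Q) := by
    have e1 : q ^ (D + 1) = q * q ^ D := by rw [pow_succ, mul_comm]
    rw [e1] at h1 h2
    have e2 : q * (a + a') = q * a + q * a' := mul_add _ _ _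
    rw [e2] at h5
    have e3 : q ^ D * ((C + C') * Q) = C * Q * q ^ D + C' * Q * q ^ D := by ring
    have e4 : q ^ D * q = q * q ^ D := mul_comm _ _
    rw [e3, e4]
    omega
  have h7 : q ≤ (C + C') * Q := Nat.le_of_mul_le_mul_left h6 hqD
  rw [hcard, pow_two] at h7
  have hQ0 : 0 < Q := hQdef ▸ pow_pos hℓ.pos e
  have h8 : Q ≤ C + C' := Nat.le_of_mul_le_mul_right h7 hQ0
  have h9 : C + C' + 1 ≤ e := by
    have : 1 ≤ r * r' := Nat.mul_pos hr hr'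
    calc C + C' + 1 = 1 * (C + C' + 1) := (one_mul _).symm
      _ ≤ r * r' * (C + C' + 1) := Nat.mul_le_mul_right _ this
  have h10 : e < Q := hQdef ▸ Nat.lt_pow_self hℓ.one_lt
  omega

/-- the trivial point -/
noncomputable def triv (ℓ : ℕ) (Λ : Type) [Group Λ] : UR (ZMod ℓ) Λ →+* ZMod ℓ :=
  UR.lift (RingHom.id _) 1

theorem triv_univ (ℓ : ℕ) {Λ : Type} [Group Λ] (x : Λ) (a b : Fin 2) :
    triv ℓ Λ (UR.univ (ZMod ℓ) Λ x a b) = (1 : Matrix (Fin 2) (Fin 2) (ZMod ℓ)) a b := by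
  unfold triv
  rw [UR.lift_univ]
  rfl

theorem isDomain {n : ℕ} {Λ : Type} [Group Λ] [Group.FG Λ]
    (h : Pool.Agent.MP_305fdd_al.SameFiniteQuotients Λ (FreeGroup (Fin n))) (ℓ : ℕ)
    [Fact ℓ.Prime] : IsDomain (UR (ZMod ℓ) Λ) := by
  have h1 : Nontrivial (UR (ZMod ℓ) Λ) := (triv ℓ Λ).domain_nontrivial
  have h2 : NoZeroDivisors (UR (ZMod ℓ) Λ) :=
    ⟨fun {x y} hxy => noZeroDivisors h ℓ x y hxy⟩
  exact NoZeroDivisors.to_isDomain _

/-- the transcendence degree is at least `3 n` -/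
theorem exists_algInd {n : ℕ} {Λ : Type} [Group Λ] [Group.FG Λ]
    (h : Pool.Agent.MP_305fdd_al.SameFiniteQuotients Λ (FreeGroup (Fin n))) (ℓ : ℕ)
    [Fact ℓ.Prime] : ∃ s : Fin n × Fin 3 → UR (ZMod ℓ) Λ, AlgebraicIndependent (ZMod ℓ) s := by
  classical
  obtain ⟨Φ⟩ := exists_natBij h
  have hk : RingHom.ker (RingHom.id (ZMod ℓ)) ^ 1 = ⊥ := by
    rw [pow_one]
    exact (RingHom.injective_iff_ker_eq_bot _).1 fun _ _ h => h
  obtain ⟨ρ, η, hη, hρ, hS⟩ := series Φ (ZMod ℓ) (ZMod ℓ) (RingHom.id _) (RingHom.id _)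
    (fun _ => rfl) 1 hk 1
  let θ : UR (ZMod ℓ) Λ →+* MvPowerSeries (Fin n × Fin 3) (ZMod ℓ) := UR.lift MvPowerSeries.C ρ
  let θ' : UR (ZMod ℓ) Λ →ₐ[ZMod ℓ] MvPowerSeries (Fin n × Fin 3) (ZMod ℓ) :=
    { θ with commutes' := fun c => UR.lift_algebraMap _ _ _ }
  have h1 : ∀ x a b, ρ x a b ∈ θ'.range := fun x a b => ⟨UR.univ (ZMod ℓ) Λ x a b,
    UR.lift_univ _ _ _ _ _⟩
  choose b hb hb' using hS θ'.range h1
  have h2 : AlgebraicIndependent (ZMod ℓ) b := algebraicIndependent_of_trunc b hb'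
  choose s hs using hb
  refine ⟨s, AlgebraicIndependent.of_comp θ' ?_⟩
  have h3 : θ' ∘ s = b := funext hs
  rw [h3]
  exact h2

theorem le_trdeg {n : ℕ} {Λ : Type} [Group Λ] [Group.FG Λ]
    (h : Pool.Agent.MP_305fdd_al.SameFiniteQuotients Λ (FreeGroup (Fin n))) (ℓ : ℕ)
    [Fact ℓ.Prime] : ((3 * n : ℕ) : Cardinal) ≤ Algebra.trdeg (ZMod ℓ) (UR (ZMod ℓ) Λ) := by
  obtain ⟨s, hs⟩ := exists_algInd h ℓ
  have h1 := hs.cardinalMk_le_trdeg
  have h2 : Cardinal.mk (Fin n × Fin 3) = ((3 * n : ℕ) : Cardinal) := by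
    rw [Cardinal.mk_fintype, Fintype.card_prod, Fintype.card_fin, Fintype.card_fin, mul_comm]
  rwa [h2] at h1

end FrH
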