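import Pool.Agent.Lib.MP_305fdd_al.Fr.N.H.Ent
import Pool.Agent.Lib.MP_305fdd_al.Fr.C.B2
import Pool.Agent.Lib.MP_305fdd_al.Fr.Asm.Stm

/-!
# MP_305fdd_al, F_r, section H: a nonabelian group in the class has an irreducible pair
-/

set_option autoImplicit false

namespace FrH

open Matrix Pool.Agent.FrN Pool.Agent.FrAsm

/-- lifts exist -/
theorem exists_lift {b : ℕ} {Γ F : Type} [Group Γ] [Field F] [Algebra (ZMod 2) F] {ρ : Γ →* SL2 F}
    (h : Cls b Γ F ρ) (R : Type) [CommRing R] [Finite R] [Algebra (ZMod 2) R] (I : Ideal R)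
    (hI : I ^ 2 = ⊥) (r : Γ →* SL2 (R ⧸ I)) :
    ∃ s : Γ →* SL2 R, (smap (Ideal.Quotient.mk I)).comp s = r := by
  have h1 := h.sm R I hI r
  have h2 : Nat.card I ≠ 0 := Nat.card_pos.ne'
  have h3 : Nat.card {s : Γ →* SL2 R // (smap (Ideal.Quotient.mk I)).comp s = r} ≠ 0 := by
    rw [h1]
    exact pow_ne_zero _ h2
  obtain ⟨⟨s, hs⟩⟩ := (Nat.card_ne_zero.1 h3).1
  exact ⟨s, hs⟩

/-- the first order deformation -/
def first {Γ : Type} [Group Γ] {S : Type} [CommRing S] [Algebra (ZMod 2) S] (τ : S)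
    (hτ : τ * τ = 0) (χ₁ χ₂ : Γ →* Multiplicative (ZMod 2)) : Γ →* SL2 S where
  toFun x := mk4 1 (algebraMap (ZMod 2) S (χ₁ x).toAdd * τ)
    (algebraMap (ZMod 2) S (χ₂ x).toAdd * τ) 1 (by
      linear_combination -(algebraMap (ZMod 2) S (χ₁ x).toAdd *
        algebraMap (ZMod 2) S (χ₂ x).toAdd) * hτ)
  map_one' := by
    refine ext_ent ?_ ?_ ?_ ?_
    · rw [mk4_00, one_ent, if_pos rfl]
    · rw [mk4_01, one_ent, if_neg Fin.zero_ne_one, map_one, toAdd_one, map_zero, zero_mul]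
    · rw [mk4_10, one_ent, if_neg Fin.zero_ne_one.symm, map_one, toAdd_one, map_zero, zero_mul]
    · rw [mk4_11, one_ent, if_pos rfl]
  map_mul' x y := by
    refine ext_ent ?_ ?_ ?_ ?_
    · rw [mul_ent, mk4_00, mk4_00, mk4_00, mk4_01, mk4_10]
      linear_combination -(algebraMap (ZMod 2) S (χ₁ x).toAdd *
        algebraMap (ZMod 2) S (χ₂ y).toAdd) * hτ
    · rw [mul_ent, mk4_01, mk4_00, mk4_01, mk4_01, mk4_11, map_mul, toAdd_mul, map_add]
      ring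
    · rw [mul_ent, mk4_10, mk4_10, mk4_00, mk4_11, mk4_10, map_mul, toAdd_mul, map_add]
      ring
    · rw [mul_ent, mk4_11, mk4_10, mk4_01, mk4_11, mk4_11]
      linear_combination -(algebraMap (ZMod 2) S (χ₂ x).toAdd *
        algebraMap (ZMod 2) S (χ₁ y).toAdd) * hτ

/-- independent characters are separated -/
theorem exists_sep {Γ : Type} [Group Γ] {χ₁ χ₂ : Γ →* Multiplicative (ZMod 2)} (h1 : χ₁ ≠ 1)
    (h12 : χ₁ ≠ χ₂) : ∃ g, (χ₁ g).toAdd = 1 ∧ (χ₂ g).toAdd = 0 := by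
  have hdi : ∀ z : Multiplicative (ZMod 2), z = 1 ∨ z = Multiplicative.ofAdd 1 := by decide
  have hz : ∀ z : Multiplicative (ZMod 2), z ≠ 1 → z.toAdd = 1 := by decide
  by_contra hcon
  push Not at hcon
  have hc : ∀ g, χ₂ g = 1 → χ₁ g = 1 := by
    intro g hg
    by_contra h3
    exact hcon g (hz _ h3) (by rw [hg]; rfl)
  by_cases h2 : χ₂ = 1
  · apply h1
    ext1 x
    exact hc x (by rw [h2]; rfl)
  · have h4 : ∃ u, χ₂ u ≠ 1 := by
      by_contra h5
      push Not at h5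
      exact h2 (MonoidHom.ext h5)
    obtain ⟨u, hu⟩ := h4
    have hu' : χ₂ u = Multiplicative.ofAdd 1 := (hdi _).resolve_left hu
    have h6 : ∀ x, χ₂ x ≠ 1 → χ₁ x = χ₁ u := by
      intro x hx
      have hx' : χ₂ x = Multiplicative.ofAdd 1 := (hdi _).resolve_left hx
      have h7 : χ₂ (x * u⁻¹) = 1 := by
        rw [map_mul, map_inv, hx', hu', mul_inv_cancel]
      have h8 := hc _ h7
      rw [map_mul, map_inv, mul_inv_eq_one] at h8
      exact h8
    by_cases h9 : χ₁ u = 1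
    · apply h1
      ext1 x
      by_cases hx : χ₂ x = 1
      · rw [hc x hx]
        rfl
      · rw [h6 x hx, h9]
        rfl
    · apply h12
      ext1 x
      have h10 : χ₁ u = Multiplicative.ofAdd 1 := (hdi _).resolve_left h9
      by_cases hx : χ₂ x = 1
      · rw [hc x hx, hx]
      · rw [h6 x hx, h10, (hdi _).resolve_left hx]

/-- the computation in the ring of truncated polynomials -/
theorem comp_aux {R : Type} [CommRing R] (t : R) (ht : t ^ 5 = 0) (p q r s p' q' r' s' : R) :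
    ((1 + p * t ^ 2) * (q' * t ^ 2) + (t + q * t ^ 2) * (1 + s' * t ^ 2) -
        ((1 + p' * t ^ 2) * (t + q * t ^ 2) + (q' * t ^ 2) * (1 + s * t ^ 2))) *
      ((r * t ^ 2) * (1 + p' * t ^ 2) + (1 + s * t ^ 2) * (t + r' * t ^ 2) -
        ((t + r' * t ^ 2) * (1 + p * t ^ 2) + (1 + s' * t ^ 2) * (r * t ^ 2))) = 0 := by
  have e : ((1 + p * t ^ 2) * (q' * t ^ 2) + (t + q * t ^ 2) * (1 + s' * t ^ 2) -
        ((1 + p' * t ^ 2) * (t + q * t ^ 2) + (q' * t ^ 2) * (1 + s * t ^ 2))) *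
      ((r * t ^ 2) * (1 + p' * t ^ 2) + (1 + s * t ^ 2) * (t + r' * t ^ 2) -
        ((t + r' * t ^ 2) * (1 + p * t ^ 2) + (1 + s' * t ^ 2) * (r * t ^ 2))) =
      t ^ 5 * (t * (p * q' * t + s' + q * s' * t - p' - p' * q * t - q' * s * t) *
        (r * p' * t + s + s * r' * t - p - r' * p * t - s' * r * t)) := by ring
  rw [e, ht, zero_mul]

/-- THE IRREDUCIBLE PAIR. -/
theorem exists_pair {b : ℕ} {Γ F : Type} [Group Γ] [Field F] [Algebra (ZMod 2) F] {ρ : Γ →* SL2 F}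
    (h : Cls b Γ F ρ) (hab : ¬ Ab Γ) : 2 ≤ b ∧ ∃ g k : Γ,
      ((ρ g).1 * (ρ k).1 - (ρ k).1 * (ρ g).1).det ≠ 0 := by
  have hfg : Group.FG Γ := h.fg
  obtain ⟨φ, hφ⟩ := h.univ (ZMod 2) 1
  have hnc : ∃ x y, ρ (MonoidHom.id Γ x) * ρ (MonoidHom.id Γ y) ≠
      ρ (MonoidHom.id Γ y) * ρ (MonoidHom.id Γ x) := by
    by_contra hcon
    push Not at hcon
    apply hab
    intro x y
    apply h.inj
    rw [map_mul, map_mul]
    exact hcon x y
  have hch := Pool.Agent.FrC.exists_two_field ρ φ.toRingHom (fun g i j => hφ g i j)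
    (MonoidHom.id Γ) hnc
  have hfin : Finite (Γ →* Multiplicative (ZMod 2)) := Pool.Agent.MP_305fdd_al.finite_hom _ _
  have h4 := Pool.Agent.FrC.four_le hch
  rw [h.ab] at h4
  refine ⟨?_, ?_⟩
  · by_contra hb
    have hb1 : b ≤ 1 := by omega
    have := Nat.pow_le_pow_right (show 0 < 2 by norm_num) hb1
    omega
  obtain ⟨χ₁, χ₂, h1, h2, h12⟩ := hch
  obtain ⟨g, hg1, hg2⟩ := exists_sep h1 h12
  obtain ⟨k, hk2, hk1⟩ := exists_sep h2 h12.symm
  refine ⟨g, k, ?_⟩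
  -- the ring of truncated polynomials
  let P : Polynomial (ZMod 2) := Polynomial.X ^ 5
  have hP : P.Monic := Polynomial.monic_X_pow 5
  let R : Type := AdjoinRoot P
  have hmf : Module.Finite (ZMod 2) R := hP.finite_adjoinRoot
  have hfR : Finite R := Module.finite_of_finite (ZMod 2)
  let t : R := AdjoinRoot.root P
  have htm : ∀ n : ℕ, t ^ n = AdjoinRoot.mk P (Polynomial.X ^ n) := by
    intro n
    rw [map_pow, AdjoinRoot.mk_X]
  have ht5 : t ^ 5 = 0 := by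
    rw [htm]
    exact AdjoinRoot.mk_self
  have ht4 : t ^ 4 ≠ 0 := by
    rw [htm]
    intro h0
    rw [AdjoinRoot.mk_eq_zero, Polynomial.X_pow_dvd_iff] at h0
    have := h0 4 (by norm_num)
    rw [Polynomial.coeff_X_pow, if_pos rfl] at this
    exact one_ne_zero this
  -- the first step
  let I : Ideal R := Ideal.span {t ^ 4}
  have hI : I ^ 2 = ⊥ := by
    rw [pow_two, Ideal.span_singleton_mul_span_singleton, Ideal.span_singleton_eq_bot]
    linear_combination t ^ 3 * ht5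
  let S : Type := R ⧸ I
  have hfS : Finite S := Finite.of_surjective _ (Ideal.Quotient.mk_surjective (I := I))
  let u : S := Ideal.Quotient.mk I t
  have hu4 : u ^ 4 = 0 := by
    rw [← map_pow]
    exact Ideal.Quotient.eq_zero_iff_mem.2 (Ideal.subset_span rfl)
  let J : Ideal S := Ideal.span {u ^ 2}
  have hJ : J ^ 2 = ⊥ := by
    rw [pow_two, Ideal.span_singleton_mul_span_singleton, Ideal.span_singleton_eq_bot]
    linear_combination hu4
  let τ : S ⧸ J := Ideal.Quotient.mk J u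
  have hτ : τ * τ = 0 := by
    rw [← map_mul]
    refine Ideal.Quotient.eq_zero_iff_mem.2 (Ideal.subset_span ?_)
    rw [Set.mem_singleton_iff, pow_two]
  obtain ⟨r₂, hr₂⟩ := exists_lift h S J hJ (first τ hτ χ₁ χ₂)
  obtain ⟨r₃, hr₃⟩ := exists_lift h R I hI r₂
  -- the entries modulo the square of `t`
  have hmem : ∀ x y : R, Ideal.Quotient.mk J (Ideal.Quotient.mk I x) =
      Ideal.Quotient.mk J (Ideal.Quotient.mk I y) → ∃ w, x = y + w * t ^ 2 := by
    intro x y hxy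
    rw [Ideal.Quotient.eq, Ideal.mem_span_singleton'] at hxy
    obtain ⟨w, hw⟩ := hxy
    obtain ⟨w, rfl⟩ := Ideal.Quotient.mk_surjective w
    rw [← map_pow, ← map_mul, ← map_sub, Ideal.Quotient.eq, Ideal.mem_span_singleton'] at hw
    obtain ⟨w', hw'⟩ := hw
    exact ⟨w - w' * t ^ 2, by linear_combination hw'⟩
  have hent : ∀ (x : Γ) (i j : Fin 2), Ideal.Quotient.mk J (Ideal.Quotient.mk I (r₃ x i j)) =
      first τ hτ χ₁ χ₂ x i j := by
    intro x i j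
    rw [← hr₂, ← hr₃]
    rfl
  have hone : Ideal.Quotient.mk J (Ideal.Quotient.mk I 1) = 1 := by rw [map_one, map_one]
  have hzero : Ideal.Quotient.mk J (Ideal.Quotient.mk I 0) = 0 := by rw [map_zero, map_zero]
  have e00 : ∀ x : Γ, ∃ w, r₃ x 0 0 = 1 + w * t ^ 2 := fun x => hmem _ _ (by
    rw [hent, hone]; rfl)
  have e11 : ∀ x : Γ, ∃ w, r₃ x 1 1 = 1 + w * t ^ 2 := fun x => hmem _ _ (by
    rw [hent, hone]; rfl)
  obtain ⟨p, hp⟩ := e00 g
  obtain ⟨s, hs⟩ := e11 g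
  obtain ⟨p', hp'⟩ := e00 k
  obtain ⟨s', hs'⟩ := e11 k
  have f01 : ∀ x : Γ, first τ hτ χ₁ χ₂ x 0 1 = algebraMap (ZMod 2) (S ⧸ J) (χ₁ x).toAdd * τ :=
    fun x => rfl
  have f10 : ∀ x : Γ, first τ hτ χ₁ χ₂ x 1 0 = algebraMap (ZMod 2) (S ⧸ J) (χ₂ x).toAdd * τ :=
    fun x => rfl
  obtain ⟨q, hq⟩ : ∃ w, r₃ g 0 1 = t + w * t ^ 2 := hmem _ _ (by
    rw [hent, f01, hg1, map_one, one_mul])
  obtain ⟨r, hr⟩ : ∃ w, r₃ g 1 0 = 0 + w * t ^ 2 := hmem _ _ (by
    rw [hent, f10, hg2, map_zero, zero_mul, hzero])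
  obtain ⟨q', hq'⟩ : ∃ w, r₃ k 0 1 = 0 + w * t ^ 2 := hmem _ _ (by
    rw [hent, f01, hk1, map_zero, zero_mul, hzero])
  obtain ⟨r', hr'⟩ : ∃ w, r₃ k 1 0 = t + w * t ^ 2 := hmem _ _ (by
    rw [hent, f10, hk2, map_one, one_mul])
  rw [zero_add] at hr hq'
  -- the universal property
  obtain ⟨ψ, hψ⟩ := h.univ R r₃
  intro h0
  -- the element of the ring of entries
  let m : Γ → Fin 2 → Fin 2 → OO 2 ρ := fun x i j => ⟨(ρ x).1 i j, mem_OO ρ x i j⟩
  have hm : ∀ x i j, ψ (m x i j) = r₃ x i j := fun x i j => hψ x i j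
  let D : OO 2 ρ := (m g 0 0 * m k 0 0 + m g 0 1 * m k 1 0 - (m k 0 0 * m g 0 0 + m k 0 1 * m g 1 0)) *
      (m g 1 0 * m k 0 1 + m g 1 1 * m k 1 1 - (m k 1 0 * m g 0 1 + m k 1 1 * m g 1 1)) -
      (m g 0 0 * m k 0 1 + m g 0 1 * m k 1 1 - (m k 0 0 * m g 0 1 + m k 0 1 * m g 1 1)) *
      (m g 1 0 * m k 0 0 + m g 1 1 * m k 1 0 - (m k 1 0 * m g 0 0 + m k 1 1 * m g 1 0))
  have hD : D = 0 := by
    apply Subtype.ext
    rw [Matrix.det_fin_two] at h0
    simp only [Matrix.sub_apply, Matrix.mul_apply, Fin.sum_univ_two] at h0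
    exact h0
  have hD2 := congrArg ψ hD
  simp only [D, map_sub, map_mul, map_add, hm, map_zero] at hD2
  rw [hp, hs, hp', hs', hq, hr, hq', hr', comp_aux t ht5, sub_zero] at hD2
  apply ht4
  have key : (((1 + p * t ^ 2) * (1 + p' * t ^ 2) + (t + q * t ^ 2) * (t + r' * t ^ 2) -
      ((1 + p' * t ^ 2) * (1 + p * t ^ 2) + q' * t ^ 2 * (r * t ^ 2))) *
      (r * t ^ 2 * (q' * t ^ 2) + (1 + s * t ^ 2) * (1 + s' * t ^ 2) -
      ((t + r' * t ^ 2) * (t + q * t ^ 2) + (1 + s' * t ^ 2) * (1 + s * t ^ 2)))) =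
      - t ^ 4 - t ^ 5 * ((q + r' + t * (q * r' - q' * r)) *
        (2 + t * (q + r' + t * (q * r' - q' * r)))) := by ring
  rw [key, ht5] at hD2
  linear_combination -hD2

end FrH
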