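import Pool.Agent.Lib.MP_305fdd_al.Fr.N.H.Conj
import Pool.Agent.Lib.MP_305fdd_al.Fr.N.H.Alg
import Pool.Agent.Lib.MP_305fdd_al.Fr.N.H.Irr

/-!
# MP_305fdd_al, F_r, section H: the transcendence degree over the trace field
-/

set_option autoImplicit false

namespace FrH

open Matrix Pool.Agent.FrN Pool.Agent.FrAsm PowerSeries

variable {Γ F : Type} [Group Γ] [Field F] [Algebra (ZMod 2) F] {ρ : Γ →* SL2 F}

theorem two_eq_zero (F : Type) [Field F] [Algebra (ZMod 2) F] : (2 : F) = 0 := by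
  have : ((2 : ZMod 2)) = 0 := by decide
  have h := congrArg (algebraMap (ZMod 2) F) this
  rwa [map_ofNat, map_zero] at h

theorem conj_ent {R : Type} [CommRing R] (P M Q : Matrix (Fin 2) (Fin 2) R) (i j : Fin 2) :
    (P * M * Q) i j = (P i 0 * M 0 0 + P i 1 * M 1 0) * Q 0 j +
      (P i 0 * M 0 1 + P i 1 * M 1 1) * Q 1 j := by
  rw [Matrix.mul_apply, Fin.sum_univ_two, Matrix.mul_apply, Matrix.mul_apply, Fin.sum_univ_two,
    Fin.sum_univ_two]

/-- the lower left entry is not zero -/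
theorem c_ne (h : Uv Γ F ρ) (g : Γ) (hg : ρ g ≠ 1) : (ρ g).1 1 0 ≠ 0 := by
  intro hc
  have key : ∀ (P Q : Matrix (Fin 2) (Fin 2) F), P * Q = 1 → (P * (ρ g).1 * Q) 1 0 = 0 := by
    intro P Q hPQ
    obtain ⟨φ, hφ⟩ := h.univ F ((conjM P Q hPQ).comp ρ)
    have h1 := hφ g 1 0
    have h2 : (⟨(ρ g).1 1 0, mem_OO ρ g 1 0⟩ : OO 2 ρ) = 0 := Subtype.ext hc
    rw [h2, map_zero] at h1
    exact h1.symm
  have hdet := det_eq (ρ g)
  have hc' : ρ g 1 0 = 0 := hc
  have h1 := key !![0, 1; -1, 0] !![0, -1; 1, 0] (by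
    ext i j
    fin_cases i <;> fin_cases j <;> simp)
  have h2 := key !![1, 0; 1, 1] !![1, 0; -1, 1] (by
    ext i j
    fin_cases i <;> fin_cases j <;> simp)
  rw [conj_ent] at h1 h2
  simp at h1 h2
  have hb : ρ g 0 1 = 0 := h1
  have hd : ρ g 0 0 + ρ g 1 0 + (-ρ g 1 1 + -ρ g 0 1) = 0 := h2
  rw [hb, hc'] at hd
  have hd' : ρ g 1 1 = ρ g 0 0 := by linear_combination -hd
  rw [hb, hc', hd'] at hdet
  have h3 := two_eq_zero F
  have h4 : (ρ g 0 0 - 1) ^ 2 = 0 := by linear_combination hdet + (1 - ρ g 0 0) * h3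
  have h5 : ρ g 0 0 = 1 := by
    have := pow_eq_zero_iff (two_ne_zero) |>.1 h4
    exact sub_eq_zero.1 this
  apply hg
  refine ext_ent ?_ ?_ ?_ ?_
  · rw [h5, one_ent, if_pos rfl]
  · rw [hb, one_ent, if_neg Fin.zero_ne_one]
  · rw [hc', one_ent, if_neg Fin.zero_ne_one.symm]
  · rw [hd', h5, one_ent, if_pos rfl]

/-- the field of the traces -/
def KK (ρ : Γ →* SL2 F) : IntermediateField (ZMod 2) F :=
  IntermediateField.adjoin (ZMod 2) (Set.range fun g => (ρ g).1.trace)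

theorem trace_mem (g : Γ) : (ρ g).1.trace ∈ KK ρ :=
  IntermediateField.subset_adjoin _ _ ⟨g, rfl⟩

/-- the traces as elements of the field -/
def TT (ρ : Γ →* SL2 F) (g : Γ) : KK ρ := ⟨(ρ g).1.trace, trace_mem g⟩

theorem fix_KK {f : F →+* LL F} (hf : ∀ g, f (ρ g).1.trace = algebraMap F (LL F) (ρ g).1.trace) :
    ∀ w ∈ KK ρ, f w = algebraMap F (LL F) w := by
  intro w hw
  unfold KK at hw
  induction hw using IntermediateField.adjoin_induction with
  | mem x hx =>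
    obtain ⟨g, rfl⟩ := hx
    exact hf g
  | algebraMap c =>
    exact DFunLike.congr_fun (Subsingleton.elim (f.comp (algebraMap (ZMod 2) F))
      ((algebraMap F (LL F)).comp (algebraMap (ZMod 2) F))) c
  | add x y _ _ h1 h2 => rw [map_add, map_add, h1, h2]
  | inv x _ h1 => rw [map_inv₀, map_inv₀, h1]
  | mul x y _ _ h1 h2 => rw [map_mul, map_mul, h1, h2]

theorem fix_adjoin {f : F →+* LL F} (hf : ∀ w ∈ KK ρ, f w = algebraMap F (LL F) w) {s : Set F}
    (hs : ∀ w ∈ s, f w = algebraMap F (LL F) w) :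
    ∀ w ∈ Algebra.adjoin (KK ρ) s, f w = algebraMap F (LL F) w := by
  intro w hw
  induction hw using Algebra.adjoin_induction with
  | mem x hx => exact hs x hx
  | algebraMap c => exact hf c.1 c.2
  | add x y _ _ h1 h2 => rw [map_add, map_add, h1, h2]
  | mul x y _ _ h1 h2 => rw [map_mul, map_mul, h1, h2]

omit [Algebra (ZMod 2) F] in
theorem trace_fix {f : F →+* LL F} {P Q : Matrix (Fin 2) (Fin 2) F⟦X⟧} (hPQ : P * Q = 1)
    (hf : ∀ g i j, f ((ρ g).1 i j) =
        algebraMap F⟦X⟧ (LL F) ((P * (ρ g).1.map (C : F →+* F⟦X⟧) * Q) i j)) :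
    ∀ g, f (ρ g).1.trace = algebraMap F (LL F) (ρ g).1.trace := by
  intro g
  have h1 : (P * (ρ g).1.map (C : F →+* F⟦X⟧) * Q).trace = C (ρ g).1.trace := by
    rw [Matrix.trace_mul_cycle, mul_eq_one_comm.1 hPQ, one_mul, Matrix.trace_fin_two,
      Matrix.trace_fin_two, map_add]
    rfl
  rw [algebraMap_LL, ← h1, Matrix.trace_fin_two, Matrix.trace_fin_two, map_add, map_add, hf, hf]

/-- conjugation by a lower unipotent matrix -/
theorem exists_low (h : Uv Γ F ρ) : ∃ f : F →+* LL F,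
    (∀ w ∈ KK ρ, f w = algebraMap F (LL F) w) ∧
    (∀ z c, f z = algebraMap F (LL F) c → c = z) ∧
    ∀ g, f ((ρ g).1 1 0) = algebraMap F⟦X⟧ (LL F) (C ((ρ g).1 1 0) +
      C ((ρ g).1 0 0 - (ρ g).1 1 1) * X - C ((ρ g).1 0 1) * X ^ 2) := by
  have hPQ : (!![1, 0; X, 1] : Matrix (Fin 2) (Fin 2) F⟦X⟧) * !![1, 0; -X, 1] = 1 := by
    ext i j
    fin_cases i <;> fin_cases j <;> simp
  obtain ⟨f, hf, hf'⟩ := exists_conj h !![1, 0; X, 1] !![1, 0; -X, 1] hPQ (by
    ext i j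
    fin_cases i <;> fin_cases j <;> simp)
  refine ⟨f, fix_KK (trace_fix hPQ hf), hf', fun g => ?_⟩
  rw [hf, conj_ent]
  congr 1
  simp
  ring

/-- conjugation by an upper unipotent matrix -/
theorem exists_up (h : Uv Γ F ρ) : ∃ f : F →+* LL F,
    (∀ w ∈ KK ρ, f w = algebraMap F (LL F) w) ∧
    (∀ z c, f z = algebraMap F (LL F) c → c = z) ∧
    (∀ g, f ((ρ g).1 1 0) = algebraMap F (LL F) ((ρ g).1 1 0)) ∧
    ∀ g, f ((ρ g).1 0 0) = algebraMap F⟦X⟧ (LL F) (C ((ρ g).1 0 0) + C ((ρ g).1 1 0) * X) := by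
  have hPQ : (!![1, X; 0, 1] : Matrix (Fin 2) (Fin 2) F⟦X⟧) * !![1, -X; 0, 1] = 1 := by
    ext i j
    fin_cases i <;> fin_cases j <;> simp
  obtain ⟨f, hf, hf'⟩ := exists_conj h !![1, X; 0, 1] !![1, -X; 0, 1] hPQ (by
    ext i j
    fin_cases i <;> fin_cases j <;> simp)
  refine ⟨f, fix_KK (trace_fix hPQ hf), hf', fun g => ?_, fun g => ?_⟩
  · rw [hf, algebraMap_LL, conj_ent]
    congr 1
    simp
  · rw [hf, conj_ent]
    congr 1
    simp
    ring

/-- conjugation by a diagonal matrix -/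
theorem exists_tor (h : Uv Γ F ρ) : ∃ (f : F →+* LL F) (u : F⟦X⟧), (1 + X) * u = 1 ∧
    (∀ w ∈ KK ρ, f w = algebraMap F (LL F) w) ∧
    (∀ z c, f z = algebraMap F (LL F) c → c = z) ∧
    ∀ g, f ((ρ g).1 1 0) = algebraMap F⟦X⟧ (LL F) (C ((ρ g).1 1 0) * u) := by
  have h1 : IsUnit (1 + X : F⟦X⟧) := by
    rw [PowerSeries.isUnit_iff_constantCoeff]
    simp
  obtain ⟨u, hu⟩ := h1.exists_right_inv
  have hPQ : (!![1 + X, 0; 0, 1] : Matrix (Fin 2) (Fin 2) F⟦X⟧) * !![u, 0; 0, 1] = 1 := by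
    ext i j
    fin_cases i <;> fin_cases j <;> simp [hu]
  obtain ⟨f, hf, hf'⟩ := exists_conj h !![1 + X, 0; 0, 1] !![u, 0; 0, 1] hPQ (by
    ext i j
    fin_cases i <;> fin_cases j <;> simp)
  refine ⟨f, u, hu, fix_KK (trace_fix hPQ hf), hf', fun g => ?_⟩
  rw [hf, conj_ent]
  congr 1
  simp

/-- at least three -/
theorem three_le (h : Uv Γ F ρ) (g k : Γ)
    (hN : ((ρ g).1 * (ρ k).1 - (ρ k).1 * (ρ g).1).det ≠ 0) (hg : (ρ g).1 1 0 ≠ 0) :
    3 ≤ Algebra.trdeg (KK ρ) F := by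
  obtain ⟨f1, f1K, f1c, f1e⟩ := exists_low h
  obtain ⟨f2, u, hu, f2K, f2c, f2e⟩ := exists_tor h
  obtain ⟨f3, f3K, f3c, f3e, f3a⟩ := exists_up h
  have hinj := IsFractionRing.injective F⟦X⟧ (LL F)
  have hu0 : u ≠ 0 := by
    intro h0
    rw [h0, mul_zero] at hu
    exact zero_ne_one hu
  have hu1 : algebraMap F⟦X⟧ (LL F) u ≠ 0 := by
    intro h0
    exact hu0 (hinj (h0.trans (map_zero _).symm))
  let z1 : F := (ρ k).1 1 0 / (ρ g).1 1 0
  let z2 : F := (ρ g).1 1 0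
  let z3 : F := (ρ g).1 0 0
  let x0 : Empty → F := fun e => e.elim
  let x1 : Option Empty → F := fun o => o.elim z1 x0
  let x2 : Option (Option Empty) → F := fun o => o.elim z2 x1
  let x3 : Option (Option (Option Empty)) → F := fun o => o.elim z3 x2
  have i0 : AlgebraicIndependent (KK ρ) x0 :=
    (algebraicIndependent_empty_type_iff).2 (FaithfulSMul.algebraMap_injective (KK ρ) F)
  -- the first element
  have n1 : ∀ c, f1 z1 ≠ algebraMap F (LL F) c := by
    intro c hc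
    have h1 := f1c _ _ hc
    rw [h1] at hc
    have h2 : f1 z1 * f1 ((ρ g).1 1 0) = f1 ((ρ k).1 1 0) := by
      rw [← map_mul]
      congr 1
      exact div_mul_cancel₀ _ hg
    rw [hc, f1e, f1e, algebraMap_LL, ← map_mul] at h2
    have h3 := hinj h2
    have c0 := congrArg (PowerSeries.coeff 0) h3
    have c1 := congrArg (PowerSeries.coeff 1) h3
    have c2 := congrArg (PowerSeries.coeff 2) h3
    simp [PowerSeries.coeff_C_mul, PowerSeries.coeff_X_pow] at c0 c1 c2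
    apply hN
    rw [← dN_eq]
    have e1 : (ρ k).1 1 0 = z1 * (ρ g).1 1 0 := (div_mul_cancel₀ _ hg).symm
    have e2 : (ρ k).1 0 0 = (ρ k).1 1 1 + z1 * ((ρ g).1 0 0 - (ρ g).1 1 1) := by
      linear_combination -c1
    have e3 : (ρ k).1 0 1 = z1 * (ρ g).1 0 1 := by
      linear_combination -c2
    rw [e1, e2, e3]
    unfold dN
    ring
  have i1 : AlgebraicIndependent (KK ρ) x1 := (i0.option_iff_transcendental z1).2
    (transc f1 const_of_alg _ (fix_adjoin f1K (by rintro _ ⟨e, rfl⟩; exact e.elim)) z1 n1)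
  -- the second element
  have f21 : f2 z1 = algebraMap F (LL F) z1 := by
    change f2 (_ / _) = algebraMap F (LL F) (_ / _)
    rw [map_div₀, map_div₀, f2e, f2e, map_mul, map_mul, ← algebraMap_LL, ← algebraMap_LL,
      mul_div_mul_right _ _ hu1]
  have n2 : ∀ c, f2 z2 ≠ algebraMap F (LL F) c := by
    intro c hc
    have h1 := f2c _ _ hc
    rw [h1, f2e, algebraMap_LL] at hc
    have h3 := hinj hc
    have hC : (C z2 : F⟦X⟧) ≠ 0 := by
      intro h0
      apply hg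
      have := congrArg (constantCoeff (R := F)) h0
      rw [constantCoeff_C, map_zero] at this
      exact this
    have h4 : u = 1 := mul_left_cancel₀ hC (h3.trans (mul_one _).symm)
    rw [h4, mul_one] at hu
    have h5 : (X : F⟦X⟧) = 0 := by linear_combination hu
    exact PowerSeries.X_ne_zero h5
  have i2 : AlgebraicIndependent (KK ρ) x2 := (i1.option_iff_transcendental z2).2
    (transc f2 const_of_alg _ (fix_adjoin f2K (by
      rintro _ ⟨e, rfl⟩
      cases e with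
      | none => exact f21
      | some e => exact e.elim)) z2 n2)
  -- the third element
  have f31 : f3 z1 = algebraMap F (LL F) z1 := by
    change f3 (_ / _) = algebraMap F (LL F) (_ / _)
    rw [map_div₀, map_div₀, f3e, f3e]
  have f32 : f3 z2 = algebraMap F (LL F) z2 := f3e g
  have n3 : ∀ c, f3 z3 ≠ algebraMap F (LL F) c := by
    intro c hc
    have h1 := f3c _ _ hc
    rw [h1, f3a, algebraMap_LL] at hc
    have h3 := hinj hc
    have h4 : (C ((ρ g).1 1 0) : F⟦X⟧) * X = 0 := by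
      linear_combination h3
    rcases mul_eq_zero.1 h4 with h5 | h5
    · apply hg
      have := congrArg (constantCoeff (R := F)) h5
      rw [constantCoeff_C, map_zero] at this
      exact this
    · exact PowerSeries.X_ne_zero h5
  have i3 : AlgebraicIndependent (KK ρ) x3 := (i2.option_iff_transcendental z3).2
    (transc f3 const_of_alg _ (fix_adjoin f3K (by
      rintro _ ⟨e, rfl⟩
      match e with
      | none => exact f32
      | some none => exact f31
      | some (some e) => exact e.elim)) z3 n3)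
  have h9 := i3.cardinalMk_le_trdeg
  have h10 : Cardinal.mk (Option (Option (Option Empty))) = 3 := by
    rw [Cardinal.mk_fintype]
    simp
  rwa [h10] at h9

/-- at most three -/
theorem le_three (h : Uv Γ F ρ) (g k : Γ)
    (hN : ((ρ g).1 * (ρ k).1 - (ρ k).1 * (ρ g).1).det ≠ 0) (hg : (ρ g).1 1 0 ≠ 0) :
    Algebra.trdeg (KK ρ) F ≤ 3 := by
  classical
  let s : Set F := {(ρ g).1 0 0, (ρ g).1 1 0, (ρ k).1 1 0}
  let R := Algebra.adjoin (KK ρ) s
  have hs : ∀ x ∈ s, IsAlgebraic R x := fun x hx =>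
    isAlgebraic_algebraMap (⟨x, Algebra.subset_adjoin hx⟩ : R)
  have ha : IsAlgebraic R ((ρ g).1 0 0) := hs _ (by simp [s])
  have hc : IsAlgebraic R ((ρ g).1 1 0) := hs _ (by simp [s])
  have hc1 : IsAlgebraic R ((ρ k).1 1 0) := hs _ (by simp [s])
  have hT : ∀ x, IsAlgebraic R (ρ x).1.trace := fun x =>
    isAlgebraic_algebraMap (algebraMap (KK ρ) R (TT ρ x))
  have hmul : ∀ x y, (ρ (x * y)).1.trace = (ρ x).1 0 0 * (ρ y).1 0 0 + (ρ x).1 0 1 * (ρ y).1 1 0 +
      ((ρ x).1 1 0 * (ρ y).1 0 1 + (ρ x).1 1 1 * (ρ y).1 1 1) := by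
    intro x y
    rw [map_mul, Matrix.trace_fin_two]
    change ((ρ x).1 * (ρ y).1) 0 0 + ((ρ x).1 * (ρ y).1) 1 1 = _
    rw [Matrix.mul_apply, Matrix.mul_apply, Fin.sum_univ_two, Fin.sum_univ_two]
  obtain ⟨hb, hd, ha1, hb1, hd1⟩ := alg_pair ha hc hc1 (hT g) (hT k) (hT (g * k)) hg
    (Matrix.trace_fin_two _).symm (Matrix.trace_fin_two _).symm (hmul g k).symm
    (det_eq (ρ g)) (det_eq (ρ k))
  rw [← dN_eq] at hN
  have hent : ∀ x i j, IsAlgebraic R ((ρ x).1 i j) := by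
    intro x
    have h3 : (ρ (x * (g * k))).1.trace = (ρ x).1 0 0 * ((ρ g).1 0 0 * (ρ k).1 0 0 +
        (ρ g).1 0 1 * (ρ k).1 1 0) + (ρ x).1 0 1 * ((ρ g).1 1 0 * (ρ k).1 0 0 +
        (ρ g).1 1 1 * (ρ k).1 1 0) + (ρ x).1 1 0 * ((ρ g).1 0 0 * (ρ k).1 0 1 +
        (ρ g).1 0 1 * (ρ k).1 1 1) + (ρ x).1 1 1 * ((ρ g).1 1 0 * (ρ k).1 0 1 +
        (ρ g).1 1 1 * (ρ k).1 1 1) := by
      rw [hmul, map_mul ρ g k]
      change _ * ((ρ g).1 * (ρ k).1) 0 0 + _ * ((ρ g).1 * (ρ k).1) 1 0 +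
        (_ * ((ρ g).1 * (ρ k).1) 0 1 + _ * ((ρ g).1 * (ρ k).1) 1 1) = _
      rw [Matrix.mul_apply, Matrix.mul_apply, Matrix.mul_apply, Matrix.mul_apply,
        Fin.sum_univ_two, Fin.sum_univ_two, Fin.sum_univ_two, Fin.sum_univ_two]
      ring
    obtain ⟨e1, e2, e3, e4⟩ := alg_all ha hb hc hd ha1 hb1 hc1 hd1 (hT x) (hT (x * g))
      (hT (x * k)) (hT (x * (g * k))) hN (Matrix.trace_fin_two _).symm
      (show (ρ x).1 0 0 * (ρ g).1 0 0 + (ρ x).1 0 1 * (ρ g).1 1 0 + (ρ x).1 1 0 * (ρ g).1 0 1 +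
        (ρ x).1 1 1 * (ρ g).1 1 1 = _ by rw [hmul]; ring)
      (show (ρ x).1 0 0 * (ρ k).1 0 0 + (ρ x).1 0 1 * (ρ k).1 1 0 + (ρ x).1 1 0 * (ρ k).1 0 1 +
        (ρ x).1 1 1 * (ρ k).1 1 1 = _ by rw [hmul]; ring) h3.symm
    intro i j
    fin_cases i <;> fin_cases j
    · exact e1
    · exact e2
    · exact e3
    · exact e4
  have hO : ∀ x ∈ OO 2 ρ, IsAlgebraic R x := by
    intro x hx
    unfold OO at hx
    induction hx using Algebra.adjoin_induction with
    | mem x hx =>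
      obtain ⟨y, i, j, rfl⟩ := hx
      exact hent y i j
    | algebraMap c =>
      have : algebraMap (ZMod 2) F c = algebraMap R F (algebraMap (ZMod 2) R c) := by
        exact DFunLike.congr_fun (Subsingleton.elim (algebraMap (ZMod 2) F)
          ((algebraMap R F).comp (algebraMap (ZMod 2) R))) c
      rw [this]
      exact isAlgebraic_algebraMap _
    | add x y _ _ h1 h2 => exact h1.add h2
    | mul x y _ _ h1 h2 => exact h1.mul h2
  have hF : Algebra.IsAlgebraic R F := by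
    refine ⟨fun x => ?_⟩
    obtain ⟨a, ha, b, hb, hb0, hx⟩ := h.frac x
    exact alg_of_mul (hO b hb) (hO a ha) hb0 hx
  have h1 := Algebra.IsAlgebraic.trdeg_le_cardinalMk (KK ρ) s (A := F)
  refine h1.trans ?_
  have h2 : Cardinal.mk s ≤ Cardinal.mk ({(ρ g).1 0 0, (ρ g).1 1 0, (ρ k).1 1 0} : Finset F) := by
    refine Cardinal.mk_le_of_injective
      (f := fun x : s => ⟨x.1, by
        have h5 : x.1 ∈ s := x.2
        simp only [s, Set.mem_insert_iff, Set.mem_singleton_iff] at h5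
        simp only [Finset.mem_insert, Finset.mem_singleton]
        exact h5⟩) ?_
    intro x y hxy
    have h6 := congrArg Subtype.val hxy
    exact Subtype.ext h6
  refine h2.trans ?_
  rw [Cardinal.mk_coe_finset]
  have h3 : ({(ρ g).1 0 0, (ρ g).1 1 0, (ρ k).1 1 0} : Finset F).card ≤ 3 := Finset.card_le_three
  exact_mod_cast h3

/-- the transcendence degree of the trace field -/
theorem trdeg_KK (h : Uv Γ F ρ) (g k : Γ)
    (hN : ((ρ g).1 * (ρ k).1 - (ρ k).1 * (ρ g).1).det ≠ 0) :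
    Algebra.trdeg (ZMod 2) (KK ρ) + 3 = Algebra.trdeg (ZMod 2) F := by
  have hg1 : ρ g ≠ 1 := by
    intro h0
    apply hN
    rw [h0]
    change (1 * (ρ k).1 - (ρ k).1 * 1).det = 0
    rw [one_mul, mul_one, sub_self, Matrix.det_zero]
  have hg := c_ne h g hg1
  have h1 := le_antisymm (le_three h g k hN hg) (three_le h g k hN hg)
  rw [← h1]
  exact trdeg_add_eq (ZMod 2) (KK ρ) (A := F)

end FrH
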