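import Pool.Agent.Lib.MP_305fdd_al.LW.RepRing

/-!
# MP_305fdd_al, F_r, section H: the universal ring of representations in `SL₂`
-/

set_option autoImplicit false

namespace FrH

open Matrix Pool.Agent.Lib.MP_305fdd_al.LW

/-- `SL₂(R)` -/
abbrev SL2 (R : Type*) [CommRing R] : Type _ := Matrix.SpecialLinearGroup (Fin 2) R

/-- the map induced by a homomorphism of rings -/
abbrev smap {R S : Type*} [CommRing R] [CommRing S] (f : R →+* S) : SL2 R →* SL2 S :=
  Matrix.SpecialLinearGroup.map f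

section UR

variable (k Γ : Type) [CommRing k] [Group Γ]

/-- the relations `det = 1` -/
noncomputable def detIdeal : Ideal (RepRing k Γ 2) :=
  Ideal.span (Set.range fun x : Γ => (RepRing.univ k Γ 2 x).det - 1)

/-- The ring over `k` carrying the universal representation `Γ → SL₂`. -/
def UR : Type := RepRing k Γ 2 ⧸ detIdeal k Γ

noncomputable instance : CommRing (UR k Γ) :=
  inferInstanceAs (CommRing (RepRing k Γ 2 ⧸ detIdeal k Γ))

noncomputable instance : Algebra k (UR k Γ) :=
  inferInstanceAs (Algebra k (RepRing k Γ 2 ⧸ detIdeal k Γ))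

namespace UR

/-- the quotient map -/
noncomputable def mk : RepRing k Γ 2 →ₐ[k] UR k Γ := Ideal.Quotient.mkₐ k (detIdeal k Γ)

theorem mk_surjective : Function.Surjective (mk k Γ) := Ideal.Quotient.mkₐ_surjective _ _

variable {k Γ} in
theorem mk_eq_zero {f : RepRing k Γ 2} (hf : f ∈ detIdeal k Γ) : mk k Γ f = 0 :=
  Ideal.Quotient.eq_zero_iff_mem.2 hf

theorem det_mk (x : Γ) : ((mk k Γ).toRingHom.mapMatrix (RepRing.univ k Γ 2 x)).det = 1 := by
  have h : (RepRing.univ k Γ 2 x).det - 1 ∈ detIdeal k Γ := Ideal.subset_span ⟨x, rfl⟩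
  have h1 := mk_eq_zero h
  rw [map_sub, map_one, sub_eq_zero] at h1
  rw [← RingHom.map_det]
  exact h1

/-- the universal representation -/
noncomputable def univ : Γ →* SL2 (UR k Γ) where
  toFun x := ⟨(mk k Γ).toRingHom.mapMatrix (RepRing.univ k Γ 2 x), det_mk k Γ x⟩
  map_one' := by
    apply Subtype.ext
    change (mk k Γ).toRingHom.mapMatrix (RepRing.univ k Γ 2 1) = 1
    rw [map_one, map_one]
  map_mul' x y := by
    apply Subtype.ext
    change (mk k Γ).toRingHom.mapMatrix (RepRing.univ k Γ 2 (x * y)) = _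
    rw [map_mul, map_mul]
    rfl

theorem univ_apply (x : Γ) (a b : Fin 2) :
    univ k Γ x a b = mk k Γ (RepRing.univ k Γ 2 x a b) := rfl

variable {k Γ}

/-- the matrix representation attached to a representation in `SL₂` -/
def toMat {R : Type*} [CommRing R] (ρ : Γ →* SL2 R) : Γ →* Matrix (Fin 2) (Fin 2) R where
  toFun x := (ρ x : Matrix (Fin 2) (Fin 2) R)
  map_one' := by rw [map_one]; rfl
  map_mul' x y := by rw [map_mul]; rfl

/-- the universal property -/
noncomputable def lift {R : Type*} [CommRing R] (f : k →+* R) (ρ : Γ →* SL2 R) : UR k Γ →+* R :=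
  Ideal.Quotient.lift (detIdeal k Γ) (RepRing.lift f (toMat ρ)) (by
    have key : detIdeal k Γ ≤ RingHom.ker (RepRing.lift f (toMat ρ)) := by
      rw [detIdeal, Ideal.span_le]
      rintro _ ⟨x, rfl⟩
      rw [SetLike.mem_coe, RingHom.mem_ker, map_sub, map_one, RingHom.map_det, sub_eq_zero]
      have h : (RepRing.lift f (toMat ρ)).mapMatrix (RepRing.univ k Γ 2 x) =
          (ρ x : Matrix (Fin 2) (Fin 2) R) := by
        ext a b
        exact RepRing.lift_univ _ _ _ _ _
      rw [h]
      exact (ρ x).2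
    exact fun x hx => key hx)

theorem lift_mk {R : Type*} [CommRing R] (f : k →+* R) (ρ : Γ →* SL2 R) (p : RepRing k Γ 2) :
    lift f ρ (mk k Γ p) = RepRing.lift f (toMat ρ) p := rfl

theorem lift_univ {R : Type*} [CommRing R] (f : k →+* R) (ρ : Γ →* SL2 R) (x : Γ) (a b : Fin 2) :
    lift f ρ (univ k Γ x a b) = ρ x a b := by
  rw [univ_apply, lift_mk, RepRing.lift_univ]
  rfl

theorem lift_algebraMap {R : Type*} [CommRing R] (f : k →+* R) (ρ : Γ →* SL2 R) (c : k) :
    lift f ρ (algebraMap k (UR k Γ) c) = f c := by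
  have : algebraMap k (UR k Γ) c = mk k Γ (algebraMap k _ c) := rfl
  rw [this, lift_mk, RepRing.lift_algebraMap]

theorem map_lift_univ {R : Type*} [CommRing R] (f : k →+* R) (ρ : Γ →* SL2 R) :
    (smap (lift f ρ)).comp (univ k Γ) = ρ := by
  ext x a b
  exact lift_univ f ρ x a b

theorem hom_ext {R : Type*} [CommRing R] {φ ψ : UR k Γ →+* R}
    (h : ∀ c : k, φ (algebraMap k _ c) = ψ (algebraMap k _ c))
    (h' : ∀ (x : Γ) (a b : Fin 2), φ (univ k Γ x a b) = ψ (univ k Γ x a b)) : φ = ψ := by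
  have : φ.comp (mk k Γ).toRingHom = ψ.comp (mk k Γ).toRingHom :=
    RepRing.hom_ext (fun c => h c) fun x a b => h' x a b
  ext x
  obtain ⟨x, rfl⟩ := mk_surjective k Γ x
  exact DFunLike.congr_fun this x

instance [Group.FG Γ] : Algebra.FiniteType k (UR k Γ) :=
  Algebra.FiniteType.of_surjective (mk k Γ) (mk_surjective k Γ)

variable (k Γ) in
theorem adjoin_univ : Algebra.adjoin k
    (Set.range fun p : Γ × Fin 2 × Fin 2 => univ k Γ p.1 p.2.1 p.2.2) = ⊤ := by
  have h1 : (Set.range fun p : Γ × Fin 2 × Fin 2 => univ k Γ p.1 p.2.1 p.2.2) =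
      mk k Γ '' (Set.range fun p : Γ × Fin 2 × Fin 2 => RepRing.univ k Γ 2 p.1 p.2.1 p.2.2) := by
    rw [← Set.range_comp]
    rfl
  rw [h1, ← AlgHom.map_adjoin, RepRing.adjoin_univ, Algebra.map_top, AlgHom.range_eq_top]
  exact mk_surjective k Γ

/-- homomorphisms from the universal ring over `𝔽_ℓ` are representations -/
noncomputable def equiv (ℓ : ℕ) (R : Type*) [CommRing R] [Algebra (ZMod ℓ) R] :
    (UR (ZMod ℓ) Γ →+* R) ≃ (Γ →* SL2 R) where
  toFun φ := (smap φ).comp (univ (ZMod ℓ) Γ)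
  invFun ρ := lift (algebraMap (ZMod ℓ) R) ρ
  left_inv φ := by
    refine hom_ext (fun c => ?_) fun x a b => ?_
    · exact DFunLike.congr_fun (Subsingleton.elim
        ((lift (algebraMap (ZMod ℓ) R) ((smap φ).comp (univ (ZMod ℓ) Γ))).comp
          (algebraMap (ZMod ℓ) _)) (φ.comp (algebraMap (ZMod ℓ) _))) c
    · rw [lift_univ]
      rfl
  right_inv ρ := map_lift_univ _ ρ

end UR

end UR

end FrH
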